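import Mathlib

set_option autoImplicit false
set_option linter.unusedSectionVars false

/-!
# Generalized one-sided forbidding grammars: definitions, and words of brackets
-/

namespace Pool.Agent.Q217.FG

/-- A forbidding rule `(A → x, F)`: the forbidding context `F` is a finite set of strings of
nonterminals, given as a list. -/
structure FRule (N T : Type) where
  lhs : N
  rhs : List (N ⊕ T)
  forb : List (List N)

/-- A generalized one-sided forbidding grammar with nonterminals `N` and terminals `T`; the finite
sets of left and of right forbidding rules are given as lists. -/
structure OSF (N T : Type) where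
  PL : List (FRule N T)
  PR : List (FRule N T)
  start : N

/-- no string of `F` is a substring of `u` -/
def Free {N T : Type} (F : List (List N)) (u : List (N ⊕ T)) : Prop :=
  ∀ f ∈ F, ¬ (f.map Sum.inl) <:+: u

/-- one derivation step `u A v ⇒ u x v` -/
inductive OSF.Step {N T : Type} (G : OSF N T) : List (N ⊕ T) → List (N ⊕ T) → Prop
  | left (r : FRule N T) (hr : r ∈ G.PL) (u v : List (N ⊕ T)) (h : Free r.forb u) :
      OSF.Step G (u ++ Sum.inl r.lhs :: v) (u ++ r.rhs ++ v)
  | right (r : FRule N T) (hr : r ∈ G.PR) (u v : List (N ⊕ T)) (h : Free r.forb v) :
      OSF.Step G (u ++ Sum.inl r.lhs :: v) (u ++ r.rhs ++ v)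

/-- the generated language -/
def OSF.Lang {N T : Type} (G : OSF N T) : Set (List T) :=
  {w | Relation.ReflTransGen G.Step [Sum.inl G.start] (w.map Sum.inr)}

/-- degree `(m, n)` -/
def OSF.Degree {N T : Type} (G : OSF N T) (m n : ℕ) : Prop :=
  (∀ r ∈ G.PL, ∀ f ∈ r.forb, f.length ≤ m) ∧ (∀ r ∈ G.PR, ∀ f ∈ r.forb, f.length ≤ n)

/-- the number of rules with a nonempty forbidding context -/
def OSF.numForb {N T : Type} (G : OSF N T) : ℕ :=
  ((G.PL ++ G.PR).filter fun r => !r.forb.isEmpty).length

/-- one step of the phrase structure (type 0) grammar with the rules `P` -/
def Step0 {N T : Type} (P : List (List (N ⊕ T) × List (N ⊕ T))) (s t : List (N ⊕ T)) : Prop :=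
  ∃ r ∈ P, ∃ p q, s = p ++ r.1 ++ q ∧ t = p ++ r.2 ++ q

/-- Recursively enumerable languages: the languages generated by phrase structure grammars
(finitely many rules `u → v`, where `u` and `v` are arbitrary strings). -/
def IsRE {T : Type} (L : Set (List T)) : Prop :=
  ∃ (N : Type) (_ : Finite N) (P : List (List (N ⊕ T) × List (N ⊕ T))) (S : N),
    ∀ w, w ∈ L ↔ Relation.ReflTransGen (Step0 P) [Sum.inl S] (w.map Sum.inr)

/-! ### Brackets -/

/-- run a word of brackets (`(false, a)`: opening, `(true, a)`: closing) on a stack -/
def run {A : Type} [DecidableEq A] : List (Bool × A) → List A → Option (List A)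
  | [], s => some s
  | (false, b) :: w, s => run w (b :: s)
  | (true, _) :: _, [] => none
  | (true, b) :: w, a :: s => if a = b then run w s else none

theorem run_append {A : Type} [DecidableEq A] (x y : List (Bool × A)) (s : List A) :
    run (x ++ y) s = (run x s).bind (run y) := by
  induction x generalizing s with
  | nil => rfl
  | cons a x ih =>
    rcases a with ⟨k, b⟩
    cases k
    · simp only [List.cons_append, run]
      exact ih _
    · cases s with
      | nil => simp [run]
      | cons c s =>
        simp only [List.cons_append, run]
        split
        · exact ih _
        · rfl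

theorem run_pair {A : Type} [DecidableEq A] (x y : List (Bool × A)) (b : A) (s : List A) :
    run (x ++ (false, b) :: (true, b) :: y) s = run (x ++ y) s := by
  rw [run_append, run_append]
  congr 1
  funext t
  simp [run]

theorem exists_pair {A : Type} [DecidableEq A] :
    ∀ (z : List (Bool × A)) (s : List A), run z s = some [] →
      (∃ p b q, z = p ++ (false, b) :: (true, b) :: q) ∨ z = s.map (fun a => (true, a)) := by
  intro z
  induction z with
  | nil =>
    intro s h
    simp only [run, Option.some.injEq] at h
    subst h
    right; rfl
  | cons a z ih =>
    intro s h
    rcases a with ⟨k, b⟩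
    cases k
    · simp only [run] at h
      rcases ih _ h with ⟨p, c, q, rfl⟩ | h1
      · left; exact ⟨(false, b) :: p, c, q, rfl⟩
      · left
        refine ⟨[], b, s.map (fun a => (true, a)), ?_⟩
        rw [h1]; rfl
    · cases s with
      | nil => simp [run] at h
      | cons c s =>
        simp only [run] at h
        split at h
        · rename_i hc
          subst hc
          rcases ih _ h with ⟨p, c', q, rfl⟩ | h1
          · left; exact ⟨(true, c) :: p, c', q, rfl⟩
          · right
            rw [h1]; rfl
        · cases h

/-- the only stack accepted by a word of brackets -/
def acc {A : Type} [DecidableEq A] : List (Bool × A) → Option (List A)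
  | [] => some []
  | (true, a) :: y => (acc y).map (a :: ·)
  | (false, a) :: y =>
    match acc y with
    | some (b :: s) => if b = a then some s else none
    | _ => none

theorem acc_iff {A : Type} [DecidableEq A] (y : List (Bool × A)) :
    ∀ s, run y s = some [] ↔ acc y = some s := by
  induction y with
  | nil => intro s; simp [run, acc, eq_comm]
  | cons a y ih =>
    intro s
    rcases a with ⟨k, b⟩
    cases k
    · simp only [run, acc]
      rw [ih]
      constructor
      · intro h; rw [h]; simp
      · intro h
        split at h
        · rename_i c t hy
          split at h
          · rename_i hc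
            simp only [Option.some.injEq] at h
            subst hc; subst h; exact hy
          · cases h
        · cases h
    · cases s with
      | nil =>
        simp only [run, acc]
        constructor
        · intro h; cases h
        · intro h
          simp at h
      | cons c s =>
        simp only [run, acc]
        constructor
        · intro h
          split at h
          · rename_i hc
            subst hc
            rw [ih] at h
            rw [h]; rfl
          · cases h
        · intro h
          simp only [Option.map_eq_some_iff, List.cons.injEq] at h
          obtain ⟨t, ht, rfl, rfl⟩ := h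
          simp [ih, ht]

/-! ### Coding with two types of brackets -/

section code
variable {A : Type} [DecidableEq A] (idx : A → ℕ)

/-- code of a bracket -/
def cd : Bool × A → List (Bool × Bool)
  | (false, a) => (false, true) :: List.replicate (idx a) (false, false)
  | (true, a) => List.replicate (idx a) (true, false) ++ [(true, true)]

/-- code of a word of brackets -/
def phi (z : List (Bool × A)) : List (Bool × Bool) := z.flatMap (cd idx)

theorem phi_append (x y : List (Bool × A)) : phi idx (x ++ y) = phi idx x ++ phi idx y := by
  simp [phi]

theorem phi_cons (a : Bool × A) (y : List (Bool × A)) :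
    phi idx (a :: y) = cd idx a ++ phi idx y := by
  simp [phi]

/-- code of a stack -/
def enc (s : List A) : List Bool := s.flatMap fun a => List.replicate (idx a) false ++ [true]

theorem enc_cons (a : A) (s : List A) :
    enc idx (a :: s) = List.replicate (idx a) false ++ true :: enc idx s := by
  simp [enc]

theorem run_openf (n : ℕ) (w : List (Bool × Bool)) (s : List Bool) :
    run (List.replicate n (false, false) ++ w) s = run w (List.replicate n false ++ s) := by
  induction n generalizing s with
  | zero => rfl
  | succ n ih =>
    rw [List.replicate_succ, List.cons_append]
    simp only [run]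
    rw [ih]
    congr 1
    rw [List.replicate_succ', List.append_assoc]
    rfl

theorem run_closef (n m : ℕ) (w : List (Bool × Bool)) (s : List Bool) :
    run (List.replicate n (true, false) ++ (true, true) :: w)
      (List.replicate m false ++ true :: s) = if n = m then run w s else none := by
  induction n generalizing m with
  | zero =>
    cases m with
    | zero => simp [run]
    | succ m =>
      rw [List.replicate_succ]
      simp [run]
  | succ n ih =>
    cases m with
    | zero =>
      rw [List.replicate_succ]
      simp [run]
    | succ m =>
      rw [List.replicate_succ, List.replicate_succ]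
      simp only [List.cons_append, run, if_true]
      rw [ih]
      simp

theorem run_close_nil (n : ℕ) (w : List (Bool × Bool)) :
    run (List.replicate n (true, false) ++ (true, true) :: w) [] = none := by
  cases n with
  | zero => simp [run]
  | succ n =>
    rw [List.replicate_succ]
    simp [run]

variable (hidx : Function.Injective idx)
include hidx

theorem run_phi (z : List (Bool × A)) :
    ∀ s, run (phi idx z) (enc idx s) = (run z s).map (enc idx) := by
  induction z with
  | nil => intro s; rfl
  | cons a z ih =>
    intro s
    rw [phi_cons]
    rcases a with ⟨k, b⟩
    cases k
    · simp only [cd, List.cons_append, run]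
      rw [run_openf, ← ih (b :: s), enc_cons]
    · simp only [cd, List.append_assoc, List.singleton_append]
      cases s with
      | nil =>
        rw [show enc idx ([] : List A) = [] from rfl, run_close_nil]
        rfl
      | cons c s =>
        rw [enc_cons, run_closef]
        simp only [run]
        by_cases h : c = b
        · subst h
          simp [ih]
        · have h' : ¬ idx b = idx c := fun e => h (hidx e).symm
          simp [h, h']

omit hidx in
theorem enc_eq_nil (s : List A) : enc idx s = [] ↔ s = [] := by
  cases s with
  | nil => simp [enc]
  | cons a s => rw [enc_cons]; simp

theorem run_phi_nil (z : List (Bool × A)) :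
    run (phi idx z) [] = some [] ↔ run z [] = some [] := by
  have h := run_phi idx hidx z []
  rw [show enc idx ([] : List A) = [] from rfl] at h
  rw [h]
  constructor
  · intro h1
    simp only [Option.map_eq_some_iff] at h1
    obtain ⟨s, hs, h2⟩ := h1
    rw [enc_eq_nil] at h2
    rw [hs, h2]
  · intro h1
    rw [h1]; rfl

end code

end Pool.Agent.Q217.FG
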