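import Pool.Agent.Q217.FG.Sound

/-!
# The grammar generates every word of the language; mirror images
-/

set_option autoImplicit false
set_option linter.unusedSectionVars false
set_option linter.unusedSimpArgs false

namespace Pool.Agent.Q217.FG

open Relation

theorem infix_inl {N T : Type} {f : List N} {w : List T} {m : List N} (hf : f ≠ [])
    (h : (f.map Sum.inl : List (N ⊕ T)) <:+: w.map Sum.inr ++ m.map Sum.inl) : f <:+: m := by
  obtain ⟨a, b, h⟩ := h
  have h1 : ∀ (w : List T) (a : List (N ⊕ T)),
      a ++ f.map Sum.inl ++ b = w.map Sum.inr ++ m.map Sum.inl → f <:+: m := by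
    intro w
    induction w with
    | nil =>
      intro a h
      simp only [List.map_nil, List.nil_append] at h
      have h2 := List.map_eq_append_iff.1 h.symm
      obtain ⟨l1, l2, rfl, h3, h4⟩ := h2
      obtain ⟨l3, l4, rfl, h5, h6⟩ := List.map_eq_append_iff.1 h3
      have h7 : l4 = f := List.map_injective_iff.2 Sum.inl_injective h6
      subst h7
      exact ⟨l3, l2, rfl⟩
    | cons t w ih =>
      intro a h
      cases a with
      | nil =>
        cases f with
        | nil => exact absurd rfl hf
        | cons x f => simp at h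
      | cons c a =>
        simp only [List.map_cons, List.cons_append, List.cons.injEq] at h
        exact ih a h.2
  exact h1 w a h

theorem free_one {N T : Type} {F : List (List N)} {w : List T} {m : List N}
    (h : ∀ f ∈ F, ∃ x, f = [x] ∧ x ∉ m) : Free F (w.map Sum.inr ++ m.map Sum.inl) := by
  intro f hf hi
  obtain ⟨x, rfl, hx⟩ := h f hf
  have h2 := infix_inl (by simp) hi
  exact hx (h2.subset (by simp))

theorem free_one' {N T : Type} {F : List (List N)} {m : List N}
    (h : ∀ f ∈ F, ∃ x, f = [x] ∧ x ∉ m) : Free F (m.map Sum.inl : List (N ⊕ T)) := by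
  have := free_one (T := T) (w := []) h
  simpa using this

theorem Good.cons {a b : NT} {m : List NT} (h : bad a b = false) (hm : Good (b :: m)) :
    Good (a :: b :: m) := by
  intro p x y q hp
  cases p with
  | nil =>
    simp only [List.nil_append, List.cons.injEq] at hp
    obtain ⟨rfl, rfl, _⟩ := hp
    exact h
  | cons c p =>
    simp only [List.cons_append, List.cons.injEq] at hp
    exact hm p x y q hp.2

theorem bad_unm {a b : NT} (ha : isM a = false) (hb : isM b = false) : bad a b = false := by
  cases a with
  | br m k c =>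
    cases m
    · cases b with
      | br m' k' c' =>
        cases m'
        · rfl
        · simp [isM] at hb
      | _ => rfl
    · simp [isM] at ha
  | _ =>
    cases b with
    | br m' k' c' =>
      cases m'
      · rfl
      · simp [isM] at hb
    | _ => rfl

theorem bad_open {a : NT} (ha : isM a = false) (b : Bool) : bad a (NT.br true false b) = false := by
  cases a with
  | br m k c =>
    cases m
    · rfl
    · simp [isM] at ha
  | _ => rfl

theorem bad_close {a : NT} (ha : isM a = false) (b : Bool) : bad (NT.br true true b) a = false := by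
  cases a with
  | br m k c =>
    cases m
    · rfl
    · simp [isM] at ha
  | _ => rfl

theorem Good.unm {m : List NT} (h : ∀ x ∈ m, isM x = false) : Good m := by
  intro p x y q hp
  subst hp
  exact bad_unm (h x (by simp)) (h y (by simp))

theorem Good.mid (b : Bool) {A B : List NT} (hA : ∀ x ∈ A, isM x = false)
    (hB : ∀ x ∈ B, isM x = false) : Good (A ++ NT.br true false b :: NT.br true true b :: B) := by
  induction A with
  | nil =>
    refine Good.cons (by simp [bad]) ?_
    cases B with
    | nil =>
      intro p x y q hp
      have := congrArg List.length hp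
      simp at this
      omega
    | cons c B => exact Good.cons (bad_close (hB c (by simp)) b) (Good.unm hB)
  | cons a A ih =>
    have ih := ih (fun x hx => hA x (by simp [hx]))
    cases A with
    | nil => exact Good.cons (bad_open (hA a (by simp)) b) ih
    | cons a' A => exact Good.cons (bad_unm (hA a (by simp)) (hA a' (by simp))) ih

theorem isM_um (z : List (Bool × Bool)) : ∀ x ∈ um z, isM x = false := by
  intro x hx
  unfold um at hx
  rw [List.mem_map] at hx
  obtain ⟨q, _, rfl⟩ := hx
  rfl

theorem um_append (x y : List (Bool × Bool)) : um (x ++ y) = um x ++ um y := by simp [um]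

theorem um_cons (a : Bool × Bool) (y : List (Bool × Bool)) :
    um (a :: y) = NT.br false a.1 a.2 :: um y := by simp [um]

section
variable {N T : Type} {syms : List (N ⊕ T)} {ts : List T}
  {P : List (List (N ⊕ T) × List (N ⊕ T))} {S : N} {idx : Sg N T → ℕ}

theorem step_cf {A : NT} {x : List (NT ⊕ T)} (h : (⟨A, x, []⟩ : FRule NT T) ∈
    ctxFree syms ts P S idx) (u v : List (NT ⊕ T)) :
    (gr syms ts P S idx).Step (u ++ Sum.inl A :: v) (u ++ x ++ v) := by
  refine OSF.Step.left ⟨A, x, []⟩ ?_ u v ?_
  · exact List.mem_append_right _ h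
  · intro f hf
    simp at hf

theorem der_SL1 (hts : ∀ t, t ∈ ts) {w : List T} {y : List (Bool × Sg N T)} (h : SL1 w y) :
    ReflTransGen (gr syms ts P S idx).Step [Sum.inl NT.S0]
      (w.map Sum.inr ++ (NT.S1 :: um (phi idx y) ++ [NT.D, NT.E false]).map Sum.inl) := by
  induction h with
  | start =>
    refine ReflTransGen.single ?_
    have h := step_cf (syms := syms) (ts := ts) (P := P) (S := S) (idx := idx) (A := .S0)
      (x := (NT.S1 :: um (phi idx [(true, none)]) ++ [NT.D, NT.E false]).map Sum.inl)
      (by simp [ctxFree]) [] []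
    simpa using h
  | @letter w y t h ih =>
    refine ih.tail ?_
    have h := step_cf (syms := syms) (ts := ts) (P := P) (S := S) (idx := idx) (A := .S1)
      (x := Sum.inr t :: (NT.S1 :: um (phi idx [(true, some (Sum.inr t))])).map Sum.inl)
      (by
        unfold ctxFree
        simp only [List.mem_append, List.mem_map]
        exact Or.inl (Or.inr ⟨t, hts t, rfl⟩)) (w.map Sum.inr)
      ((um (phi idx y) ++ [NT.D, NT.E false]).map Sum.inl)
    rw [phi_cons, um_append]
    have e : phi idx [(true, some (Sum.inr t))] = cd idx (true, some (Sum.inr t)) := by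
      simp [phi]
    rw [e] at h
    simpa [List.append_assoc] using h

theorem der_SL2 (hts : ∀ t, t ∈ ts) {w : List T} {x y : List (Bool × Sg N T)}
    (h : SL2 (moves syms P) w x y) :
    ReflTransGen (gr syms ts P S idx).Step [Sum.inl NT.S0]
      (w.map Sum.inr ++ (NT.D :: um (phi idx x) ++ NT.S2 :: um (phi idx y) ++
        [NT.D, NT.E false]).map Sum.inl) := by
  induction h with
  | @start y h =>
    refine (der_SL1 hts h).tail ?_
    have h := step_cf (syms := syms) (ts := ts) (P := P) (S := S) (idx := idx) (A := .S1)
      (x := (NT.D :: um (phi idx [(false, none)]) ++ [NT.S2]).map Sum.inl)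
      (by simp [ctxFree]) (w.map Sum.inr)
      ((um (phi idx y) ++ [NT.D, NT.E false]).map Sum.inl)
    simpa [List.append_assoc] using h
  | @step x y m hm h ih =>
    refine ih.tail ?_
    have h := step_cf (syms := syms) (ts := ts) (P := P) (S := S) (idx := idx) (A := .S2)
      (x := (um (phi idx m.1) ++ NT.S2 :: um (phi idx m.2)).map Sum.inl)
      (by
        unfold ctxFree
        simp only [List.mem_append, List.mem_map]
        exact Or.inr ⟨m, hm, rfl⟩)
      (w.map Sum.inr ++ (NT.D :: um (phi idx x)).map Sum.inl)
      ((um (phi idx y) ++ [NT.D, NT.E false]).map Sum.inl)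
    rw [phi_append, phi_append, um_append, um_append]
    simpa [List.append_assoc] using h

theorem der_fin (hts : ∀ t, t ∈ ts) {w : List T} {x y : List (Bool × Sg N T)}
    (h : SL2 (moves syms P) w x y) :
    ReflTransGen (gr syms ts P S idx).Step [Sum.inl NT.S0]
      (w.map Sum.inr ++ (NT.D :: um (phi idx (x ++ fin S ++ y)) ++
        [NT.D, NT.E false]).map Sum.inl) := by
  refine (der_SL2 hts h).tail ?_
  have h := step_cf (syms := syms) (ts := ts) (P := P) (S := S) (idx := idx) (A := .S2)
    (x := (um (phi idx (fin S))).map Sum.inl)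
    (by simp [ctxFree])
    (w.map Sum.inr ++ (NT.D :: um (phi idx x)).map Sum.inl)
    ((um (phi idx y) ++ [NT.D, NT.E false]).map Sum.inl)
  rw [phi_append, phi_append, um_append, um_append]
  simpa [List.append_assoc] using h

theorem step_left {A : NT} {x : List NT} {F : List (List NT)}
    (h : (⟨A, x.map Sum.inl, F⟩ : FRule NT T) ∈ ctxLeft) {w : List T} {m1 m2 : List NT}
    (hF : Free F (w.map Sum.inr ++ m1.map Sum.inl)) :
    (gr syms ts P S idx).Step (w.map Sum.inr ++ (m1 ++ A :: m2).map Sum.inl)
      (w.map Sum.inr ++ (m1 ++ x ++ m2).map Sum.inl) := by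
  have := OSF.Step.left (G := gr syms ts P S idx) ⟨A, x.map Sum.inl, F⟩
    (List.mem_append_left _ h) (w.map Sum.inr ++ m1.map Sum.inl) (m2.map Sum.inl) hF
  simpa [List.append_assoc] using this

theorem step_right {A : NT} {x : List NT} {F : List (List NT)}
    (h : (⟨A, x.map Sum.inl, F⟩ : FRule NT T) ∈ ctxRight) {w : List T} {m1 m2 : List NT}
    (hF : Free F (m2.map Sum.inl : List (NT ⊕ T))) :
    (gr syms ts P S idx).Step (w.map Sum.inr ++ (m1 ++ A :: m2).map Sum.inl)
      (w.map Sum.inr ++ (m1 ++ x ++ m2).map Sum.inl) := by
  have := OSF.Step.right (G := gr syms ts P S idx) ⟨A, x.map Sum.inl, F⟩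
    h (w.map Sum.inr ++ m1.map Sum.inl) (m2.map Sum.inl) hF
  simpa [List.append_assoc] using this

theorem E_notMem_um (e : Bool) (z : List (Bool × Bool)) : NT.E e ∉ um z := by
  intro h
  unfold um at h
  rw [List.mem_map] at h
  obtain ⟨q, _, h⟩ := h
  cases h

theorem cancel (b : Bool) (w : List T) (p q : List (Bool × Bool)) :
    ReflTransGen (gr syms ts P S idx).Step
      (w.map Sum.inr ++ (NT.D :: um (p ++ (false, b) :: (true, b) :: q) ++
        [NT.D, NT.E false]).map Sum.inl)
      (w.map Sum.inr ++ (NT.D :: um (p ++ q) ++ [NT.D, NT.E false]).map Sum.inl) := by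
  have hE : ∀ e, NT.E e ∉ um q := fun e => E_notMem_um e q
  have s1 : (gr syms ts P S idx).Step
      (w.map Sum.inr ++ ((NT.D :: um p) ++ NT.br false false b ::
        (NT.br false true b :: um q ++ [NT.D, NT.E false])).map Sum.inl)
      (w.map Sum.inr ++ ((NT.D :: um p) ++ [NT.br true false b] ++
        (NT.br false true b :: um q ++ [NT.D, NT.E false])).map Sum.inl) := by
    refine step_right (F := [[.E true]]) ?_ (free_one' ?_)
    · unfold ctxRight
      simp only [List.mem_append, List.mem_map]
      exact Or.inl (Or.inl ⟨(false, b), mem_bb _, rfl⟩)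
    · intro f hf
      simp only [List.mem_singleton] at hf
      exact ⟨_, hf, by simp [hE]⟩
  have s2 : (gr syms ts P S idx).Step
      (w.map Sum.inr ++ ((NT.D :: um p ++ [NT.br true false b]) ++ NT.br false true b ::
        (um q ++ [NT.D, NT.E false])).map Sum.inl)
      (w.map Sum.inr ++ ((NT.D :: um p ++ [NT.br true false b]) ++ [NT.br true true b] ++
        (um q ++ [NT.D, NT.E false])).map Sum.inl) := by
    refine step_right (F := [[.E true]]) ?_ (free_one' ?_)
    · unfold ctxRight
      simp only [List.mem_append, List.mem_map]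
      exact Or.inl (Or.inl ⟨(true, b), mem_bb _, rfl⟩)
    · intro f hf
      simp only [List.mem_singleton] at hf
      exact ⟨_, hf, by simp [hE]⟩
  have s3 : (gr syms ts P S idx).Step
      (w.map Sum.inr ++ ((NT.D :: um p ++ NT.br true false b :: NT.br true true b ::
        (um q ++ [NT.D])) ++ NT.E false :: []).map Sum.inl)
      (w.map Sum.inr ++ ((NT.D :: um p ++ NT.br true false b :: NT.br true true b ::
        (um q ++ [NT.D])) ++ [NT.E true] ++ []).map Sum.inl) := by
    refine step_left (F := badList) ?_ ?_
    · unfold ctxLeft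
      simp
    · intro f hf hi
      obtain ⟨x, y, hxy, rfl⟩ := of_mem_badList hf
      obtain ⟨s, t, hst⟩ := infix_inl (by simp) hi
      have hg : Good (NT.D :: um p ++ NT.br true false b :: NT.br true true b :: (um q ++ [NT.D])) := by
        refine Good.mid b ?_ ?_
        · intro x hx
          rcases List.mem_cons.1 hx with rfl | hx
          · rfl
          · exact isM_um p x hx
        · intro x hx
          rcases List.mem_append.1 hx with hx | hx
          · exact isM_um q x hx
          · rw [List.mem_singleton] at hx
            subst hx; rfl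
      have := hg s x y t (by rw [← hst]; simp)
      rw [this] at hxy
      cases hxy
  have s4 : (gr syms ts P S idx).Step
      (w.map Sum.inr ++ ((NT.D :: um p) ++ NT.br true false b ::
        (NT.br true true b :: um q ++ [NT.D, NT.E true])).map Sum.inl)
      (w.map Sum.inr ++ ((NT.D :: um p) ++ [] ++
        (NT.br true true b :: um q ++ [NT.D, NT.E true])).map Sum.inl) := by
    refine step_right (F := [[.E false]]) ?_ (free_one' ?_)
    · unfold ctxRight
      simp only [List.mem_append, List.mem_map]
      exact Or.inl (Or.inr ⟨(false, b), mem_bb _, rfl⟩)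
    · intro f hf
      simp only [List.mem_singleton] at hf
      exact ⟨_, hf, by simp [hE]⟩
  have s5 : (gr syms ts P S idx).Step
      (w.map Sum.inr ++ ((NT.D :: um p) ++ NT.br true true b ::
        (um q ++ [NT.D, NT.E true])).map Sum.inl)
      (w.map Sum.inr ++ ((NT.D :: um p) ++ [] ++
        (um q ++ [NT.D, NT.E true])).map Sum.inl) := by
    refine step_right (F := [[.E false]]) ?_ (free_one' ?_)
    · unfold ctxRight
      simp only [List.mem_append, List.mem_map]
      exact Or.inl (Or.inr ⟨(true, b), mem_bb _, rfl⟩)
    · intro f hf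
      simp only [List.mem_singleton] at hf
      exact ⟨_, hf, by simp [hE]⟩
  have s6 : (gr syms ts P S idx).Step
      (w.map Sum.inr ++ ((NT.D :: um p ++ um q ++ [NT.D]) ++ NT.E true :: []).map Sum.inl)
      (w.map Sum.inr ++ ((NT.D :: um p ++ um q ++ [NT.D]) ++ [NT.E false] ++ []).map
        Sum.inl) := by
    refine step_left (F := marked) ?_ (free_one ?_)
    · unfold ctxLeft
      simp
    · have hm : ∀ k c, NT.br true k c ∉ (NT.D :: um p ++ um q ++ [NT.D]) := by
        intro k c hx
        have h3 : ∀ x ∈ (NT.D :: um p ++ um q ++ [NT.D]), isM x = false := by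
          intro x hx
          simp only [List.cons_append, List.mem_cons, List.mem_append, List.not_mem_nil,
            or_false] at hx
          rcases hx with rfl | (hx | hx) | rfl
          · rfl
          · exact isM_um p x hx
          · exact isM_um q x hx
          · rfl
        have := h3 _ hx
        simp [isM] at this
      intro f hf
      simp only [marked, List.mem_cons, List.not_mem_nil, or_false] at hf
      rcases hf with rfl | rfl | rfl | rfl <;> exact ⟨_, rfl, hm _ _⟩
  refine ReflTransGen.trans (b := w.map Sum.inr ++ ((NT.D :: um p) ++ [NT.br true false b] ++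
        (NT.br false true b :: um q ++ [NT.D, NT.E false])).map Sum.inl) (ReflTransGen.single ?_) ?_
  · simpa [um_append, um_cons, List.append_assoc] using s1
  refine ReflTransGen.trans (b := w.map Sum.inr ++ ((NT.D :: um p ++ [NT.br true false b]) ++ [NT.br true true b] ++
        (um q ++ [NT.D, NT.E false])).map Sum.inl) (ReflTransGen.single ?_) ?_
  · simpa [um_append, um_cons, List.append_assoc] using s2
  refine ReflTransGen.trans (b := w.map Sum.inr ++ ((NT.D :: um p ++ NT.br true false b :: NT.br true true b ::
        (um q ++ [NT.D])) ++ [NT.E true] ++ []).map Sum.inl) (ReflTransGen.single ?_) ?_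
  · simpa [um_append, um_cons, List.append_assoc] using s3
  refine ReflTransGen.trans (b := w.map Sum.inr ++ ((NT.D :: um p) ++ [] ++
        (NT.br true true b :: um q ++ [NT.D, NT.E true])).map Sum.inl) (ReflTransGen.single ?_) ?_
  · simpa [um_append, um_cons, List.append_assoc] using s4
  refine ReflTransGen.trans (b := w.map Sum.inr ++ ((NT.D :: um p) ++ [] ++
        (um q ++ [NT.D, NT.E true])).map Sum.inl) (ReflTransGen.single ?_) ?_
  · simpa [um_append, um_cons, List.append_assoc] using s5
  refine ReflTransGen.single ?_
  simpa [um_append, um_cons, List.append_assoc] using s6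

theorem cancel_all (w : List T) : ∀ (n : ℕ) (z : List (Bool × Bool)), z.length ≤ n →
    run z [] = some [] → ReflTransGen (gr syms ts P S idx).Step
      (w.map Sum.inr ++ (NT.D :: um z ++ [NT.D, NT.E false]).map Sum.inl)
      (w.map Sum.inr ++ [NT.D, NT.D, NT.E false].map Sum.inl) := by
  intro n
  induction n with
  | zero =>
    intro z hz _
    have : z = [] := List.length_eq_zero_iff.1 (by omega)
    subst this
    exact ReflTransGen.refl
  | succ n ih =>
    intro z hz hr
    rcases exists_pair z [] hr with ⟨p, b, q, rfl⟩ | h
    · rw [run_pair] at hr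
      refine (cancel b w p q).trans (ih (p ++ q) ?_ hr)
      simp only [List.length_append, List.length_cons] at hz ⊢
      omega
    · simp only [List.map_nil] at h
      subst h
      exact ReflTransGen.refl

theorem lang_complete (hidx : Function.Injective idx) (hsy : ∀ v, v ∈ syms) (hts : ∀ t, t ∈ ts)
    {w : List T} (h : ReflTransGen (Step0 P) [Sum.inl S] (w.map Sum.inr)) :
    w ∈ (gr syms ts P S idx).Lang := by
  obtain ⟨x, y, h1, h2⟩ := complete syms P hsy S h
  have h3 := (run_phi_nil idx hidx _).2 h2
  have h4 := (der_fin (idx := idx) (S := S) hts h1).trans (cancel_all w _ _ le_rfl h3)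
  change ReflTransGen _ _ _
  refine h4.trans ?_
  have s1 : (gr syms ts P S idx).Step
      (w.map Sum.inr ++ ([NT.D, NT.D] ++ NT.E false :: []).map Sum.inl)
      (w.map Sum.inr ++ ([NT.D, NT.D] ++ [] ++ []).map Sum.inl) := by
    refine step_left (F := finals) ?_ (free_one ?_)
    · unfold ctxLeft
      simp
    · intro f hf
      simp only [finals, marked, List.mem_cons, List.not_mem_nil, or_false] at hf
      rcases hf with rfl | rfl | rfl | rfl | rfl | rfl | rfl | rfl | rfl | rfl <;>
        exact ⟨_, rfl, by simp⟩
  have s2 : (gr syms ts P S idx).Step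
      (w.map Sum.inr ++ ([NT.D] ++ NT.D :: []).map Sum.inl)
      (w.map Sum.inr ++ ([NT.D] ++ [] ++ []).map Sum.inl) := by
    refine step_right (F := [[.E false], [.E true]]) ?_ (free_one' ?_)
    · unfold ctxRight
      simp
    · intro f hf
      simp only [List.mem_cons, List.not_mem_nil, or_false] at hf
      rcases hf with rfl | rfl <;> exact ⟨_, rfl, by simp⟩
  have s3 : (gr syms ts P S idx).Step
      (w.map Sum.inr ++ ([] ++ NT.D :: []).map Sum.inl)
      (w.map Sum.inr ++ ([] ++ [] ++ []).map Sum.inl) := by
    refine step_right (F := [[.E false], [.E true]]) ?_ (free_one' ?_)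
    · unfold ctxRight
      simp
    · intro f hf
      simp only [List.mem_cons, List.not_mem_nil, or_false] at hf
      rcases hf with rfl | rfl <;> exact ⟨_, rfl, by simp⟩
  refine ReflTransGen.head s1 (ReflTransGen.head s2 ?_)
  have := ReflTransGen.single s3
  simpa using this

theorem lang_eq (hidx : Function.Injective idx) (hsy : ∀ v, v ∈ syms) (hts : ∀ t, t ∈ ts)
    (w : List T) : w ∈ (gr syms ts P S idx).Lang ↔
      ReflTransGen (Step0 P) [Sum.inl S] (w.map Sum.inr) :=
  ⟨lang_sound hidx, lang_complete hidx hsy hts⟩

end

/-! ### Mirror images -/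

section
variable {N T : Type}

/-- mirror image of a rule -/
def mrule (r : FRule N T) : FRule N T := ⟨r.lhs, r.rhs.reverse, r.forb.map List.reverse⟩

/-- mirror image of a grammar -/
def mirror (G : OSF N T) : OSF N T := ⟨G.PR.map mrule, G.PL.map mrule, G.start⟩

theorem mrule_mrule (r : FRule N T) : mrule (mrule r) = r := by
  rcases r with ⟨a, x, F⟩
  simp [mrule]

theorem mirror_mirror (G : OSF N T) : mirror (mirror G) = G := by
  rcases G with ⟨a, b, c⟩
  simp [mirror, mrule_mrule, Function.comp_def]

theorem Free.rev {F : List (List N)} {u : List (N ⊕ T)} (h : Free F u) :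
    Free (F.map List.reverse) u.reverse := by
  intro f hf hi
  obtain ⟨g, hg, rfl⟩ := List.mem_map.1 hf
  refine h g hg ?_
  rw [List.map_reverse] at hi
  exact List.reverse_infix.1 hi

theorem step_mirror {G : OSF N T} {s t : List (N ⊕ T)} (h : G.Step s t) :
    (mirror G).Step s.reverse t.reverse := by
  cases h with
  | left r hr u v hf =>
    have := OSF.Step.right (G := mirror G) (mrule r) (List.mem_map.2 ⟨r, hr, rfl⟩) v.reverse
      u.reverse hf.rev
    simpa [mrule] using this
  | right r hr u v hf =>
    have := OSF.Step.left (G := mirror G) (mrule r) (List.mem_map.2 ⟨r, hr, rfl⟩) v.reverse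
      u.reverse hf.rev
    simpa [mrule] using this

theorem mem_mirror' {G : OSF N T} {w : List T} (h : w ∈ G.Lang) :
    w.reverse ∈ (mirror G).Lang := by
  have h1 : ∀ s, ReflTransGen G.Step [Sum.inl G.start] s →
      ReflTransGen (mirror G).Step [Sum.inl G.start] s.reverse := by
    intro s hs
    induction hs with
    | refl => exact ReflTransGen.refl
    | tail _ hst ih => exact ih.tail (step_mirror hst)
  have := h1 _ h
  rw [← List.map_reverse] at this
  exact this

theorem mem_mirror {G : OSF N T} {w : List T} : w ∈ (mirror G).Lang ↔ w.reverse ∈ G.Lang := by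
  constructor
  · intro h
    have := mem_mirror' h
    rwa [mirror_mirror] at this
  · intro h
    have := mem_mirror' h
    rwa [List.reverse_reverse] at this

theorem degree_mirror {G : OSF N T} {m n : ℕ} (h : G.Degree m n) : (mirror G).Degree n m := by
  constructor
  · intro r hr f hf
    obtain ⟨r', hr', rfl⟩ := List.mem_map.1 hr
    obtain ⟨g, hg, rfl⟩ := List.mem_map.1 hf
    rw [List.length_reverse]
    exact h.2 r' hr' g hg
  · intro r hr f hf
    obtain ⟨r', hr', rfl⟩ := List.mem_map.1 hr
    obtain ⟨g, hg, rfl⟩ := List.mem_map.1 hf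
    rw [List.length_reverse]
    exact h.1 r' hr' g hg

theorem numForb_mirror (G : OSF N T) : (mirror G).numForb = G.numForb := by
  unfold OSF.numForb mirror
  simp only [List.filter_append, List.length_append, List.filter_map, List.length_map]
  have h : ∀ l : List (FRule N T), (l.filter ((fun r => !r.forb.isEmpty) ∘ mrule)) =
      l.filter fun r => !r.forb.isEmpty := by
    intro l
    apply List.filter_congr
    intro r _
    rcases r with ⟨a, x, F⟩
    cases F <;> simp [mrule]
  rw [h, h, add_comm]

theorem IsRE.rev {L : Set (List T)} (h : IsRE L) : IsRE {w | w.reverse ∈ L} := by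
  obtain ⟨N, hN, P, S, hL⟩ := h
  have key : ∀ (Q : List (List (N ⊕ T) × List (N ⊕ T))) (s t : List (N ⊕ T)),
      ReflTransGen (Step0 Q) s t →
      ReflTransGen (Step0 (Q.map fun r => (r.1.reverse, r.2.reverse))) s.reverse t.reverse := by
    intro Q s t h
    induction h with
    | refl => exact ReflTransGen.refl
    | tail _ hst ih =>
      refine ih.tail ?_
      obtain ⟨r, hr, p, q, rfl, rfl⟩ := hst
      exact ⟨_, List.mem_map.2 ⟨r, hr, rfl⟩, q.reverse, p.reverse, by simp, by simp⟩
  refine ⟨N, hN, P.map fun r => (r.1.reverse, r.2.reverse), S, ?_⟩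
  intro w
  change w.reverse ∈ L ↔ _
  rw [hL]
  constructor
  · intro h
    have := key _ _ _ h
    simpa [← List.map_reverse] using this
  · intro h
    have := key _ _ _ h
    rw [List.map_map] at this
    have e : (fun r : List (N ⊕ T) × List (N ⊕ T) => (r.1.reverse, r.2.reverse)) ∘
        (fun r => (r.1.reverse, r.2.reverse)) = id := by
      funext r
      simp
    rw [e, List.map_id, ← List.map_reverse] at this
    simpa using this

end

/-- every recursively enumerable language is generated by such a grammar -/
theorem exists_grammar {T : Type} [Finite T] {L : Set (List T)} (hL : IsRE L) :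
    ∃ G : OSF NT T, G.Degree 2 1 ∧ G.numForb ≤ 12 ∧ G.Lang = L := by
  obtain ⟨N, hN, P, S, hL⟩ := hL
  have : Fintype T := Fintype.ofFinite T
  have : Fintype (N ⊕ T) := Fintype.ofFinite _
  obtain ⟨k, ⟨f⟩⟩ := Finite.exists_equiv_fin (Sg N T)
  refine ⟨gr (Finset.univ : Finset (N ⊕ T)).toList (Finset.univ : Finset T).toList P S
    (fun a => (f a : ℕ)), gr_degree _ _ _ _ _, gr_numForb _ _ _ _ _, ?_⟩
  ext w
  rw [hL w]
  exact lang_eq (fun a b h => f.injective (Fin.ext h)) (by simp) (by simp) w

end Pool.Agent.Q217.FG
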