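import Pool.Agent.Q217.FG.Sym

/-!
# The grammar
-/

set_option autoImplicit false
set_option linter.unusedSectionVars false

namespace Pool.Agent.Q217.FG

open Relation

/-- the 14 nonterminals: `br m k b` is a bracket, marked if `m`, closing if `k`, of type `b` -/
inductive NT
  | S0 | S1 | S2 | D
  | E (e : Bool)
  | br (m k b : Bool)
  deriving DecidableEq, Fintype

theorem card_NT : Fintype.card NT = 14 := by decide

/-- all nonterminals -/
def nts : List NT :=
  [.S0, .S1, .S2, .D, .E false, .E true, .br false false false, .br false false true,
    .br false true false, .br false true true, .br true false false, .br true false true,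
    .br true true false, .br true true true]

theorem mem_nts (x : NT) : x ∈ nts := by
  cases x with
  | S0 => decide
  | S1 => decide
  | S2 => decide
  | D => decide
  | E e => cases e <;> decide
  | br m k b => cases m <;> cases k <;> cases b <;> decide

/-- forbidden pairs of neighbours: a marked opening bracket not followed by the marked closing
bracket of the same type, or a marked closing bracket not preceded by its partner -/
def bad : NT → NT → Bool
  | .br true false b, .br true true b' => b != b'
  | .br true false _, _ => true
  | _, .br true true _ => true
  | _, _ => false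

/-- the forbidden pairs -/
def badList : List (List NT) :=
  nts.flatMap fun x => (nts.filter (bad x)).map fun y => [x, y]

theorem mem_badList {x y : NT} (h : bad x y = true) : [x, y] ∈ badList := by
  unfold badList
  simp only [List.mem_flatMap, List.mem_map, List.mem_filter]
  exact ⟨x, mem_nts x, y, ⟨mem_nts y, h⟩, rfl⟩

theorem of_mem_badList {f : List NT} (h : f ∈ badList) : ∃ x y, bad x y = true ∧ f = [x, y] := by
  unfold badList at h
  simp only [List.mem_flatMap, List.mem_map, List.mem_filter] at h
  obtain ⟨x, _, y, ⟨_, hp⟩, rfl⟩ := h
  exact ⟨_, _, hp, rfl⟩

/-- unmarked brackets -/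
def um (z : List (Bool × Bool)) : List NT := z.map fun q => .br false q.1 q.2

/-- the marked brackets -/
def marked : List (List NT) :=
  [[.br true false false], [.br true false true], [.br true true false], [.br true true true]]

/-- what has to disappear before the end -/
def finals : List (List NT) :=
  [.S1] :: [.S2] :: [.br false false false] :: [.br false false true] ::
    [.br false true false] :: [.br false true true] :: marked

section
variable {N T : Type} (syms : List (N ⊕ T)) (ts : List T)
  (P : List (List (N ⊕ T) × List (N ⊕ T))) (S : N) (idx : Sg N T → ℕ)

/-- rules without forbidding context -/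
def ctxFree : List (FRule NT T) :=
  [⟨.S0, (NT.S1 :: um (phi idx [(true, none)]) ++ [NT.D, NT.E false]).map Sum.inl, []⟩,
    ⟨.S1, (NT.D :: um (phi idx [(false, none)]) ++ [NT.S2]).map Sum.inl, []⟩,
    ⟨.S2, (um (phi idx (fin S))).map Sum.inl, []⟩] ++
  (ts.map fun t => ⟨.S1, Sum.inr t :: (NT.S1 :: um (phi idx [(true, some (Sum.inr t))])).map
    Sum.inl, []⟩) ++
  (moves syms P).map fun m =>
    ⟨.S2, (um (phi idx m.1) ++ NT.S2 :: um (phi idx m.2)).map Sum.inl, []⟩

/-- left rules with forbidding context -/
def ctxLeft : List (FRule NT T) :=
  [⟨.E false, [Sum.inl (.E true)], badList⟩, ⟨.E true, [Sum.inl (.E false)], marked⟩,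
    ⟨.E false, [], finals⟩]

/-- the four brackets -/
def bb : List (Bool × Bool) := [(false, false), (false, true), (true, false), (true, true)]

theorem mem_bb (q : Bool × Bool) : q ∈ bb := by
  rcases q with ⟨a, b⟩
  cases a <;> cases b <;> decide

/-- right rules with forbidding context -/
def ctxRight : List (FRule NT T) :=
  (bb.map fun q => ⟨.br false q.1 q.2, [Sum.inl (.br true q.1 q.2)], [[.E true]]⟩) ++
  (bb.map fun q => ⟨.br true q.1 q.2, [], [[.E false]]⟩) ++
  [⟨.D, [], [[.E false], [.E true]]⟩]

/-- the grammar -/
def gr : OSF NT T where
  PL := ctxLeft ++ ctxFree syms ts P S idx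
  PR := ctxRight
  start := .S0

theorem gr_degree : (gr syms ts P S idx).Degree 2 1 := by
  constructor
  · intro r hr f hf
    simp only [gr, List.mem_append] at hr
    rcases hr with hr | hr
    · simp only [ctxLeft, List.mem_cons, List.not_mem_nil, or_false] at hr
      rcases hr with rfl | rfl | rfl
      · obtain ⟨x, y, _, rfl⟩ := of_mem_badList hf
        simp
      · simp only [marked, List.mem_cons, List.not_mem_nil, or_false] at hf
        rcases hf with rfl | rfl | rfl | rfl <;> simp
      · simp only [finals, marked, List.mem_cons, List.not_mem_nil, or_false] at hf
        rcases hf with rfl | rfl | rfl | rfl | rfl | rfl | rfl | rfl | rfl | rfl <;> simp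
    · exfalso
      simp only [ctxFree, List.mem_append, List.mem_cons, List.not_mem_nil, or_false,
        List.mem_map] at hr
      rcases hr with ((rfl | rfl | rfl) | ⟨t, _, rfl⟩) | ⟨m, _, rfl⟩ <;> simp at hf
  · intro r hr f hf
    simp only [gr, ctxRight, List.mem_append, List.mem_map, List.mem_cons, List.not_mem_nil,
      or_false] at hr
    rcases hr with (⟨q, _, rfl⟩ | ⟨q, _, rfl⟩) | rfl
    · simp only [List.mem_singleton] at hf
      subst hf; simp
    · simp only [List.mem_singleton] at hf
      subst hf; simp
    · simp only [List.mem_cons, List.not_mem_nil, or_false] at hf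
      rcases hf with rfl | rfl <;> simp

theorem gr_numForb : (gr syms ts P S idx).numForb ≤ 12 := by
  unfold OSF.numForb gr
  simp only [List.filter_append, List.length_append]
  have h1 : (ctxFree syms ts P S idx).filter (fun r => !r.forb.isEmpty) = [] := by
    rw [List.filter_eq_nil_iff]
    intro r hr
    simp only [ctxFree, List.mem_append, List.mem_cons, List.not_mem_nil, or_false,
      List.mem_map] at hr
    rcases hr with ((rfl | rfl | rfl) | ⟨t, _, rfl⟩) | ⟨m, _, rfl⟩ <;> simp
  rw [h1]
  have h2 : ((ctxLeft (T := T)).filter fun r => !r.forb.isEmpty).length ≤ 3 :=
    (List.length_filter_le _ _).trans (by simp [ctxLeft])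
  have h3 : ((ctxRight (T := T)).filter fun r => !r.forb.isEmpty).length ≤ 9 :=
    (List.length_filter_le _ _).trans (by simp [ctxRight, bb])
  simp only [List.length_nil]
  omega

end

/-! ### Normal forms -/

/-- unmark -/
def unmark : NT → NT
  | .br _ k b => .br false k b
  | x => x

/-- is it a marked bracket? -/
def isM : NT → Bool
  | .br true _ _ => true
  | _ => false

/-- is it not a bracket? -/
def isNB : NT → Bool
  | .br _ _ _ => false
  | _ => true

/-- In the state `false` marks are ignored, in the state `true` marked letters are ignored. -/
def norm (e : Bool) (m : List NT) : List NT :=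
  if e then m.filter (fun x => !isM x) else m.map unmark

theorem norm_append (e : Bool) (m m' : List NT) : norm e (m ++ m') = norm e m ++ norm e m' := by
  cases e <;> simp [norm]

theorem norm_cons_nb (e : Bool) {x : NT} (hx : isNB x = true) (m : List NT) :
    norm e (x :: m) = x :: norm e m := by
  cases x <;> cases e <;> simp_all [norm, isNB, isM, unmark]

theorem norm_um (e : Bool) (z : List (Bool × Bool)) : norm e (um z) = um z := by
  induction z with
  | nil => cases e <;> rfl
  | cons a z ih =>
    cases e
    · simp only [norm, um, Bool.false_eq_true, if_false, List.map_cons, unmark] at ih ⊢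
      rw [ih]
    · simp only [norm, um, if_true, List.map_cons] at ih ⊢
      rw [List.filter_cons_of_pos (by simp [isM]), ih]

/-- push a letter on a stack, cancelling a matching pair -/
def push (st : List NT) (a : NT) : List NT :=
  match a, st with
  | .br false true b, .br false false b' :: s => if b = b' then s else a :: st
  | _, _ => a :: st

/-- push a word -/
def nf (st m : List NT) : List NT := m.foldl push st

theorem nf_append (st m m' : List NT) : nf st (m ++ m') = nf (nf st m) m' := by
  simp [nf]

theorem nf_cons (st : List NT) (a : NT) (m : List NT) : nf st (a :: m) = nf (push st a) m := rfl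

theorem push_open (st : List NT) (b : Bool) :
    push st (.br false false b) = .br false false b :: st := by
  unfold push
  cases st <;> rfl

theorem push_nb (st : List NT) {x : NT} (hx : isNB x = true) : push st x = x :: st := by
  cases x <;> simp_all [push, isNB]

theorem push_pair (st : List NT) (b : Bool) :
    push (push st (.br false false b)) (.br false true b) = st := by
  rw [push_open]
  simp [push]

/-- not an unmarked opening bracket -/
def notOpen : NT → Bool
  | .br false false _ => false
  | _ => true

theorem push_barrier (st1 st2 : List NT) {x : NT} (hx : notOpen x = true) (a : NT) :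
    push (st1 ++ x :: st2) a = push st1 a ++ x :: st2 := by
  cases st1 with
  | nil =>
    cases a with
    | br m k b =>
      cases m <;> cases k <;> (first | rfl | skip)
      cases x with
      | br m k b' => cases m <;> cases k <;> simp_all [push, notOpen]
      | _ => rfl
    | _ => rfl
  | cons y st1 =>
    cases a with
    | br m k b =>
      cases m <;> cases k <;> (first | rfl | skip)
      cases y with
      | br m k b' =>
        cases m <;> cases k <;> (first | rfl | skip)
        simp only [push, List.cons_append]
        split <;> rfl
      | _ => rfl
    | _ => rfl

theorem nf_barrier (st1 st2 : List NT) {x : NT} (hx : notOpen x = true) (m : List NT) :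
    nf (st1 ++ x :: st2) m = nf st1 m ++ x :: st2 := by
  induction m generalizing st1 with
  | nil => rfl
  | cons a m ih =>
    rw [nf_cons, nf_cons, push_barrier _ _ hx, ih]

theorem notOpen_of_nb {x : NT} (hx : isNB x = true) : notOpen x = true := by
  cases x <;> simp_all [isNB, notOpen]

theorem nf_split (st m1 m2 : List NT) {x : NT} (hx : isNB x = true) :
    nf st (m1 ++ x :: m2) = nf [] m2 ++ x :: nf st m1 := by
  rw [nf_append, nf_cons, push_nb _ hx]
  exact nf_barrier [] _ (notOpen_of_nb hx) m2

/-- confluence -/
theorem nf_confl (st m : List NT) : nf st m = nf st (nf [] m).reverse := by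
  induction m using List.reverseRecOn with
  | nil => rfl
  | append_singleton m a ih =>
    rw [nf_append, nf_append, ih]
    generalize nf [] m = K
    change push (nf st K.reverse) a = nf st (push K a).reverse
    have key : push K a = a :: K ∨ ∃ b K', K = .br false false b :: K' ∧ a = .br false true b ∧
        push K a = K' := by
      cases K with
      | nil =>
        left
        cases a with
        | br m k b => cases m <;> cases k <;> rfl
        | _ => rfl
      | cons y K =>
        cases a with
        | br m k b =>
          cases m <;> cases k <;> (first | (left; rfl) | skip)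
          cases y with
          | br m k b' =>
            cases m <;> cases k <;> (first | (left; rfl) | skip)
            by_cases hb : b = b'
            · subst hb
              right
              exact ⟨b, K, rfl, rfl, by simp [push]⟩
            · left
              simp [push, hb]
          | _ => left; rfl
        | _ => left; rfl
    rcases key with h | ⟨b, K', rfl, rfl, h⟩
    · rw [h, List.reverse_cons, nf_append]
      rfl
    · rw [h, List.reverse_cons, nf_append]
      exact push_pair _ _

theorem nf_congr (st m m' : List NT) (h : nf [] m = nf [] m') : nf st m = nf st m' := by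
  rw [nf_confl st m, nf_confl st m', h]

/-- letters which are not brackets -/
def nb (m : List NT) : List NT := m.filter isNB

theorem nb_append (m m' : List NT) : nb (m ++ m') = nb m ++ nb m' := by simp [nb]

theorem nb_um (z : List (Bool × Bool)) : nb (um z) = [] := by
  unfold nb um
  rw [List.filter_eq_nil_iff]
  intro a ha
  rw [List.mem_map] at ha
  obtain ⟨q, _, rfl⟩ := ha
  simp [isNB]

theorem nb_norm (e : Bool) (m : List NT) : nb (norm e m) = nb m := by
  induction m with
  | nil => cases e <;> rfl
  | cons a m ih =>
    cases e
    · simp only [norm, nb, Bool.false_eq_true, if_false, List.map_cons] at ih ⊢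
      cases a <;> simp_all [unmark, isNB, List.filter_cons]
    · simp only [norm, nb, if_true] at ih ⊢
      cases a with
      | br m k b => cases m <;> simp_all [isM, isNB, List.filter_cons]
      | _ => simp_all [isM, isNB, List.filter_cons]

theorem nb_push (st : List NT) (a : NT) : nb (push st a) = nb (a :: st) := by
  cases a with
  | br m k b =>
    cases m <;> cases k <;> (first | (cases st <;> rfl) | skip)
    cases st with
    | nil => rfl
    | cons y st =>
      cases y with
      | br m k b' =>
        cases m <;> cases k <;> (first | rfl | skip)
        simp only [push]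
        split <;> simp [nb, isNB]
      | _ => rfl
  | _ => cases st <;> rfl

theorem nb_nf (st m : List NT) : nb (nf st m) = (nb m).reverse ++ nb st := by
  induction m generalizing st with
  | nil => rfl
  | cons a m ih =>
    rw [nf_cons, ih, nb_push]
    by_cases ha : isNB a = true
    · simp [nb, List.filter_cons, ha]
    · simp [nb, List.filter_cons, ha]

theorem nb_eq {e : Bool} {m m0 : List NT} (h : nf [] (norm e m) = nf [] m0) : nb m = nb m0 := by
  have := congrArg nb h
  rw [nb_nf, nb_nf, nb_norm] at this
  simpa [nb] using this

end Pool.Agent.Q217.FG
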