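import Pool.Agent.Q217.FG.Gram

/-!
# The grammar generates only words of the language
-/

set_option autoImplicit false
set_option linter.unusedSectionVars false

namespace Pool.Agent.Q217.FG

open Relation

theorem infix_one {X : Type} {x : X} {l : List X} (h : x ∈ l) : [x] <:+: l := by
  obtain ⟨a, b, rfl⟩ := List.append_of_mem h
  exact ⟨a, b, by simp⟩

theorem append_cons_inj {X : Type} {x : X} {a b a' b' : List X} (h : a ++ x :: b = a' ++ x :: b')
    (ha : x ∉ a) (ha' : x ∉ a') : a = a' ∧ b = b' := by
  induction a generalizing a' with
  | nil =>
    cases a' with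
    | nil => simpa using h
    | cons y a' =>
      simp only [List.nil_append, List.cons_append, List.cons.injEq] at h
      exact absurd (by rw [h.1]; simp) ha'
  | cons y a ih =>
    cases a' with
    | nil =>
      simp only [List.nil_append, List.cons_append, List.cons.injEq] at h
      exact absurd (by rw [h.1]; simp) ha
    | cons z a' =>
      simp only [List.cons_append, List.cons.injEq] at h
      obtain ⟨h1, h2⟩ := ih h.2 (fun h => ha (List.mem_cons_of_mem _ h))
        (fun h => ha' (List.mem_cons_of_mem _ h))
      exact ⟨by rw [h.1, h1], h2⟩

/-- no forbidden pair -/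
def Good (m : List NT) : Prop := ∀ p x y q, m = p ++ x :: y :: q → bad x y = false

theorem Good.tail {a : NT} {m : List NT} (h : Good (a :: m)) : Good m := by
  intro p x y q e
  exact h (a :: p) x y q (by rw [e]; rfl)

theorem Good.head {a b : NT} {m : List NT} (h : Good (a :: b :: m)) : bad a b = false :=
  h [] a b m rfl

theorem chk : ∀ (n : ℕ) (m : List NT), m.length ≤ n →
    (∀ b m', m ≠ NT.br true true b :: m') → Good (m ++ [NT.D]) →
      ∀ st, nf st (norm false m) = nf st (norm true m) := by
  intro n
  induction n with
  | zero =>
    intro m hm _ _ st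
    have : m = [] := List.eq_nil_of_length_eq_zero (by omega)
    subst this
    rfl
  | succ n ih =>
    intro m hm hh hg st
    cases m with
    | nil => rfl
    | cons x m =>
      have hlen : m.length ≤ n := by simpa using hm
      by_cases hx : isM x = true
      · cases x with
        | br mm k b =>
          cases mm with
          | false => simp [isM] at hx
          | true =>
            cases k with
            | true => exact absurd rfl (hh b m)
            | false =>
              cases m with
              | nil =>
                have := Good.head (m := []) hg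
                simp [bad] at this
              | cons y m =>
                have h1 := Good.head hg
                have h2 : y = NT.br true true b := by
                  cases y with
                  | br mm k b' =>
                    cases mm <;> cases k <;> simp_all [bad]
                  | _ => simp [bad] at h1
                subst h2
                have h3 : norm true (NT.br true false b :: NT.br true true b :: m) =
                    norm true m := by
                  simp [norm, isM]
                have h4 : norm false (NT.br true false b :: NT.br true true b :: m) =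
                    NT.br false false b :: NT.br false true b :: norm false m := by
                  simp [norm, unmark]
                rw [h3, h4, nf_cons, nf_cons, push_pair]
                refine ih m (by simp at hlen; omega) ?_ (Good.tail (Good.tail hg)) st
                rintro b' m' rfl
                have := Good.head (Good.tail hg)
                simp [bad] at this
        | _ => simp [isM] at hx
      · have h3 : norm true (x :: m) = x :: norm true m := by
          simp only [Bool.not_eq_true] at hx
          simp [norm, hx]
        have h4 : norm false (x :: m) = x :: norm false m := by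
          have : unmark x = x := by
            cases x with
            | br mm k b => cases mm <;> simp_all [isM, unmark]
            | _ => rfl
          simp [norm, this]
        rw [h3, h4, nf_cons, nf_cons]
        refine ih m hlen ?_ (Good.tail hg) _
        rintro b m' rfl
        have := Good.head hg
        cases x with
        | br mm k b' => cases mm <;> cases k <;> simp_all [bad, isM]
        | _ => simp [bad] at this

section
variable {N T : Type} (R : List (List (Bool × Sg N T) × List (Bool × Sg N T)))
  (S : N) (idx : Sg N T → ℕ)

/-- the strings of the linear grammar before any cancellation -/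
inductive Shape (w : List T) : List NT → Prop
  | one {y : List (Bool × Sg N T)} : SL1 w y → Shape w (NT.S1 :: um (phi idx y))
  | two {x y : List (Bool × Sg N T)} : SL2 R w x y →
      Shape w (NT.D :: um (phi idx x) ++ NT.S2 :: um (phi idx y))
  | three {x y : List (Bool × Sg N T)} : SL2 R w x y →
      Shape w (NT.D :: um (phi idx (x ++ fin S ++ y)))

/-- the invariant -/
def Inv (s : List (NT ⊕ T)) : Prop :=
  ∃ (w : List T) (m : List NT) (e : Bool) (m0 : List NT),
    s = w.map Sum.inr ++ (m ++ [NT.D, NT.E e]).map Sum.inl ∧ Shape R S idx w m0 ∧
      nf [] (norm e m) = nf [] m0 ∧ (NT.S1 ∈ m → ∃ m', m = NT.S1 :: m')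

theorem split1 {w : List T} {l : List NT} {u v : List (NT ⊕ T)} {A : NT}
    (h : u ++ Sum.inl A :: v = w.map Sum.inr ++ l.map Sum.inl) :
    ∃ l1 l2, l = l1 ++ A :: l2 ∧ u = w.map Sum.inr ++ l1.map Sum.inl ∧ v = l2.map Sum.inl := by
  induction w generalizing u with
  | nil =>
    simp only [List.map_nil, List.nil_append] at h
    obtain ⟨l1, l3, rfl, h1, h2⟩ := List.map_eq_append_iff.1 h.symm
    obtain ⟨a, l2, rfl, h3, h4⟩ := List.map_eq_cons_iff.1 h2
    simp only [Sum.inl.injEq] at h3
    subst h3
    exact ⟨l1, l2, rfl, by simpa using h1.symm, h4.symm⟩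
  | cons a w ih =>
    cases u with
    | nil => simp at h
    | cons b u =>
      simp only [List.cons_append, List.map_cons, List.cons.injEq] at h
      obtain ⟨rfl, h⟩ := h
      obtain ⟨l1, l2, h1, h2, h3⟩ := ih h
      exact ⟨l1, l2, h1, by rw [h2]; rfl, h3⟩

theorem split2 {l1 l2 m : List NT} {A x y : NT} (h : l1 ++ A :: l2 = m ++ [x, y]) :
    (∃ l3, l2 = l3 ++ [x, y] ∧ m = l1 ++ A :: l3) ∨ (A = x ∧ l1 = m ∧ l2 = [y]) ∨
      (A = y ∧ l1 = m ++ [x] ∧ l2 = []) := by
  induction m generalizing l1 with
  | nil =>
    right
    cases l1 with
    | nil =>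
      simp only [List.nil_append, List.cons.injEq] at h
      exact Or.inl ⟨h.1, rfl, h.2⟩
    | cons a l1 =>
      cases l1 with
      | nil =>
        simp only [List.nil_append, List.cons_append, List.cons.injEq] at h
        obtain ⟨rfl, rfl, h⟩ := h
        exact Or.inr ⟨rfl, rfl, h⟩
      | cons b l1 =>
        simp at h
  | cons c m ih =>
    cases l1 with
    | nil =>
      simp only [List.nil_append, List.cons_append, List.cons.injEq] at h
      obtain ⟨rfl, rfl⟩ := h
      exact Or.inl ⟨m, rfl, rfl⟩
    | cons a l1 =>
      simp only [List.cons_append, List.cons.injEq] at h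
      obtain ⟨rfl, h⟩ := h
      rcases ih h with ⟨l3, h1, h2⟩ | ⟨h1, h2, h3⟩ | ⟨h1, h2, h3⟩
      · exact Or.inl ⟨l3, h1, by rw [h2]; rfl⟩
      · exact Or.inr (Or.inl ⟨h1, by rw [h2], h3⟩)
      · exact Or.inr (Or.inr ⟨h1, by rw [h2]; rfl, h3⟩)

variable {R S idx}

theorem Shape.head {w : List T} {m0 : List NT} (h : Shape R S idx w m0) :
    ∃ x rest, m0 = x :: rest ∧ (x = NT.S1 ∨ x = NT.D) := by
  cases h with
  | one _ => exact ⟨_, _, rfl, Or.inl rfl⟩
  | two _ => exact ⟨_, _, rfl, Or.inr rfl⟩
  | three _ => exact ⟨_, _, rfl, Or.inr rfl⟩

theorem nb_one (y : List (Bool × Bool)) : nb (NT.S1 :: um y) = [NT.S1] := by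
  have := nb_um y
  simp only [nb] at this ⊢
  rw [List.filter_cons_of_pos rfl, this]

theorem nb_three (y : List (Bool × Bool)) : nb (NT.D :: um y) = [NT.D] := by
  have := nb_um y
  simp only [nb] at this ⊢
  rw [List.filter_cons_of_pos rfl, this]

theorem nb_two (x y : List (Bool × Bool)) :
    nb (NT.D :: um x ++ NT.S2 :: um y) = [NT.D, NT.S2] := by
  have h1 := nb_um x
  have h2 := nb_um y
  rw [nb_append, nb_three]
  simp only [nb] at h2 ⊢
  rw [List.filter_cons_of_pos rfl, h2]
  rfl

theorem Shape.nb_mem {w : List T} {m0 : List NT} (h : Shape R S idx w m0) {x : NT}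
    (hx : x ∈ nb m0) : x = NT.S1 ∨ x = NT.S2 ∨ x = NT.D := by
  cases h with
  | one _ => rw [nb_one] at hx; simp_all
  | two _ => rw [nb_two] at hx; simp_all; tauto
  | three _ => rw [nb_three] at hx; simp_all

theorem Shape.of_S1 {w : List T} {m0 : List NT} (h : Shape R S idx w m0)
    (hx : NT.S1 ∈ nb m0) : ∃ y, SL1 w y ∧ m0 = NT.S1 :: um (phi idx y) := by
  cases h with
  | one h => exact ⟨_, h, rfl⟩
  | two _ => rw [nb_two] at hx; simp at hx
  | three _ => rw [nb_three] at hx; simp at hx

theorem Shape.of_S2 {w : List T} {m0 : List NT} (h : Shape R S idx w m0)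
    (hx : NT.S2 ∈ nb m0) : ∃ x y, SL2 R w x y ∧
      m0 = NT.D :: um (phi idx x) ++ NT.S2 :: um (phi idx y) := by
  cases h with
  | one h => rw [nb_one] at hx; simp at hx
  | two h => exact ⟨_, _, h, rfl⟩
  | three _ => rw [nb_three] at hx; simp at hx

theorem mem_nb {x : NT} {m : List NT} (h : x ∈ m) (hx : isNB x = true) : x ∈ nb m :=
  List.mem_filter.2 ⟨h, hx⟩

theorem of_mem_nb {x : NT} {m : List NT} (h : x ∈ nb m) : x ∈ m := (List.mem_filter.1 h).1

end

section
variable {N T : Type} {syms : List (N ⊕ T)} {ts : List T}
  {P : List (List (N ⊕ T) × List (N ⊕ T))} {S : N} {idx : Sg N T → ℕ}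

/-- the strings after the right end has disappeared -/
def Fin' (P : List (List (N ⊕ T) × List (N ⊕ T))) (S : N) (s : List (NT ⊕ T)) : Prop :=
  ∃ (w : List T) (j : ℕ), s = w.map Sum.inr ++ (List.replicate j NT.D).map Sum.inl ∧
    ReflTransGen (Step0 P) [Sum.inl S] (w.map Sum.inr)

theorem mkInv {w : List T} {m : List NT} {e : Bool} {m0 : List NT} {s : List (NT ⊕ T)}
    (h1 : s = w.map Sum.inr ++ (m ++ [NT.D, NT.E e]).map Sum.inl)
    (h2 : Shape (moves syms P) S idx w m0) (h3 : nf [] (norm e m) = nf [] m0)
    (h4 : NT.S1 ∉ nb m0 ∨ (NT.S1 ∈ m → ∃ m', m = NT.S1 :: m')) :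
    Inv (moves syms P) S idx s := by
  refine ⟨w, m, e, m0, h1, h2, h3, ?_⟩
  rcases h4 with h4 | h4
  · intro h
    exact absurd (by rw [← nb_eq h3]; exact mem_nb h rfl) h4
  · exact h4

/-- the left part of `m` when `S1` occurs -/
theorem S1_head {w : List T} {m : List NT} {e : Bool} {m0 l1 l3 : List NT}
    (h2 : Shape (moves syms P) S idx w m0) (h3 : nf [] (norm e m) = nf [] m0)
    (h4 : NT.S1 ∈ m → ∃ m', m = NT.S1 :: m') (hm : m = l1 ++ NT.S1 :: l3) :
    l1 = [] ∧ ∃ y, SL1 w y ∧ m0 = NT.S1 :: um (phi idx y) ∧
      nf [] (norm e l3) = nf [] (um (phi idx y)) := by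
  have hmem : NT.S1 ∈ m := by rw [hm]; simp
  have hnb := nb_eq h3
  obtain ⟨y, hy, rfl⟩ := h2.of_S1 (by rw [← hnb]; exact mem_nb hmem rfl)
  rw [nb_one, hm, nb_append] at hnb
  obtain ⟨m', hm'⟩ := h4 hmem
  have h5 : nb (NT.S1 :: l3) = NT.S1 :: nb l3 := rfl
  rw [h5] at hnb
  have h6 : l1 = [] := by
    cases l1 with
    | nil => rfl
    | cons a l1 =>
      rw [hm] at hm'
      simp only [List.cons_append, List.cons.injEq] at hm'
      rw [hm'.1] at hnb
      have h7 : nb (NT.S1 :: l1) = NT.S1 :: nb l1 := rfl
      rw [h7] at hnb
      simp at hnb
  refine ⟨h6, y, hy, rfl, ?_⟩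
  subst h6
  rw [hm, List.nil_append, norm_cons_nb e rfl] at h3
  have h8 := nf_split [] [] (norm e l3) (x := NT.S1) rfl
  have h9 := nf_split [] [] (um (phi idx y)) (x := NT.S1) rfl
  rw [List.nil_append] at h8 h9
  rw [h8, h9] at h3
  exact List.append_cancel_right h3

theorem S2_parts {w : List T} {m : List NT} {e : Bool} {m0 l1 l3 : List NT}
    (h2 : Shape (moves syms P) S idx w m0) (h3 : nf [] (norm e m) = nf [] m0)
    (hm : m = l1 ++ NT.S2 :: l3) :
    ∃ x y, SL2 (moves syms P) w x y ∧
      nf [] (norm e l1) = nf [] (NT.D :: um (phi idx x)) ∧
      nf [] (norm e l3) = nf [] (um (phi idx y)) := by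
  have hmem : NT.S2 ∈ m := by rw [hm]; simp
  have hnb := nb_eq h3
  obtain ⟨x, y, hy, rfl⟩ := h2.of_S2 (by rw [← hnb]; exact mem_nb hmem rfl)
  refine ⟨x, y, hy, ?_⟩
  rw [nb_two, hm, nb_append] at hnb
  have h5 : nb (NT.S2 :: l3) = NT.S2 :: nb l3 := rfl
  rw [h5] at hnb
  have h6 : nb l3 = [] := by
    have hl := congrArg List.length hnb
    simp only [List.length_append, List.length_cons, List.length_nil] at hl
    rcases h : nb l1 with _ | ⟨a, r⟩
    · rw [h] at hnb; simp at hnb
    · rw [h] at hl
      simp only [List.length_cons] at hl
      exact List.eq_nil_of_length_eq_zero (by omega)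
  rw [hm, norm_append, norm_cons_nb e rfl, nf_split _ _ _ rfl, nf_split _ _ _ rfl] at h3
  have h7 : NT.S2 ∉ nf [] (norm e l3) := by
    intro h
    have h8 := mem_nb h rfl
    rw [nb_nf, nb_norm, h6] at h8
    simp [nb] at h8
  have h8 : NT.S2 ∉ nf [] (um (phi idx y)) := by
    intro h
    have h9 := mem_nb h rfl
    rw [nb_nf, nb_um] at h9
    simp [nb] at h9
  obtain ⟨h9, h10⟩ := append_cons_inj h3 h7 h8
  exact ⟨h10, h9⟩

theorem not_free_one {F : List (List NT)} {x : NT} {u : List (NT ⊕ T)} (hF : [x] ∈ F)
    (hx : Sum.inl x ∈ u) : ¬ Free F u := by
  intro h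
  exact h _ hF (infix_one hx)

/-- in a reduced word no closing bracket is left over -/
theorem run_of_nf (z : List (Bool × Bool)) : ∀ st : List Bool,
    nf (st.map fun b => NT.br false false b) (um z) = [] → run z st = some [] := by
  induction z with
  | nil =>
    intro st h
    simp only [um, List.map_nil, nf, List.foldl_nil, List.map_eq_nil_iff] at h
    simp [run, h]
  | cons a z ih =>
    intro st h
    rcases a with ⟨k, b⟩
    have key : ∀ st' : List NT, nf (NT.br false true b :: st') (um z) ≠ [] := by
      intro st' h'
      have := nf_barrier [] st' (x := NT.br false true b) rfl (um z)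
      rw [List.nil_append] at this
      rw [this] at h'
      simp at h'
    cases k
    · simp only [run]
      apply ih
      have : um ((false, b) :: z) = NT.br false false b :: um z := rfl
      rw [this, nf_cons, push_open] at h
      exact h
    · have : um ((true, b) :: z) = NT.br false true b :: um z := rfl
      rw [this, nf_cons] at h
      cases st with
      | nil =>
        exact absurd h (key _)
      | cons c st =>
        simp only [List.map_cons, push] at h
        split at h
        · rename_i hb
          subst hb
          simp only [run, if_true]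
          exact ih _ h
        · exact absurd h (key _)

variable (hidx : Function.Injective idx)
include hidx

theorem step_inv {s t : List (NT ⊕ T)} (h : (gr syms ts P S idx).Step s t)
    (hi : Inv (moves syms P) S idx s) : Inv (moves syms P) S idx t ∨ Fin' P S t := by
  cases h with
  | left r hr u v hf =>
    obtain ⟨w, m, e, m0, hs, hsh, hnf, hS⟩ := hi
    obtain ⟨l1, l2, hl, rfl, rfl⟩ := split1 hs
    have hl' := split2 hl.symm
    simp only [gr, ctxLeft, ctxFree, List.mem_append, List.mem_cons, List.not_mem_nil, or_false,
      List.mem_map] at hr
    rcases hr with (rfl | rfl | rfl) | ((rfl | rfl | rfl) | ⟨a, ha, rfl⟩) | ⟨q, hq, rfl⟩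
    · -- `E false → E true`
      rcases hl' with ⟨l3, _, hm⟩ | ⟨h1, _, _⟩ | ⟨h1, h2, h3⟩
      · exfalso
        have : NT.E false ∈ m := by rw [hm]; simp
        have := hsh.nb_mem (by rw [← nb_eq hnf]; exact mem_nb this rfl)
        simp at this
      · cases h1
      · simp only [NT.E.injEq] at h1
        subst h1; subst h2; subst h3
        left
        refine mkInv (w := w) (m := m) (e := true) (m0 := m0) (by simp) hsh ?_ (Or.inr hS)
        rw [← hnf]
        symm
        refine chk _ m le_rfl ?_ ?_ []
        · rintro b m' rfl
          have h4 : norm false (NT.br true true b :: m') = NT.br false true b :: norm false m' := by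
            simp [norm, unmark]
          obtain ⟨x, rest, rfl, hx⟩ := hsh.head
          have hxx : isNB x = true := by rcases hx with rfl | rfl <;> rfl
          have h5 : nf [] (NT.br false true b :: norm false m') =
              nf [] (norm false m') ++ [NT.br false true b] :=
            nf_barrier [] [] (x := NT.br false true b) rfl _
          have h6 : nf [] (x :: rest) = nf [] rest ++ [x] := by
            have := nf_split [] [] rest hxx
            rwa [List.nil_append] at this
          rw [h4, h5, h6] at hnf
          have h7 := congrArg List.getLast? hnf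
          simp only [List.getLast?_append, List.getLast?_singleton, Option.some_or,
            Option.some.injEq] at h7
          rw [← h7] at hxx
          simp [isNB] at hxx
        · intro p x y q e
          by_contra hb
          simp only [Bool.not_eq_false] at hb
          refine hf _ (mem_badList hb) ⟨w.map Sum.inr ++ p.map Sum.inl, q.map Sum.inl, ?_⟩
          rw [e]
          simp
    · -- `E true → E false`
      rcases hl' with ⟨l3, _, hm⟩ | ⟨h1, _, _⟩ | ⟨h1, h2, h3⟩
      · exfalso
        have : NT.E true ∈ m := by rw [hm]; simp
        have := hsh.nb_mem (by rw [← nb_eq hnf]; exact mem_nb this rfl)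
        simp at this
      · cases h1
      · simp only [NT.E.injEq] at h1
        subst h1; subst h2; subst h3
        left
        refine mkInv (w := w) (m := m) (e := false) (m0 := m0) (by simp) hsh ?_ (Or.inr hS)
        rw [← hnf]
        have hM : ∀ x ∈ m, isM x = false := by
          intro x hx
          by_contra hb
          simp only [Bool.not_eq_false] at hb
          have hxF : [x] ∈ marked := by
            cases x with
            | br mm k b => cases mm <;> cases k <;> cases b <;> simp_all [isM, marked]
            | _ => simp [isM] at hb
          refine not_free_one hxF ?_ hf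
          simp [hx]
        have h4 : norm true m = m := by
          simp only [norm, if_true]
          rw [List.filter_eq_self]
          intro x hx
          simp [hM x hx]
        have h5 : norm false m = m := by
          simp only [norm, Bool.false_eq_true, if_false]
          conv_rhs => rw [← List.map_id m]
          apply List.map_congr_left
          intro x hx
          have := hM x hx
          cases x with
          | br mm k b => cases mm <;> simp_all [isM, unmark]
          | _ => rfl
        rw [h4, h5]
    · -- `E false → ε`
      rcases hl' with ⟨l3, _, hm⟩ | ⟨h1, _, _⟩ | ⟨h1, h2, h3⟩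
      · exfalso
        have : NT.E false ∈ m := by rw [hm]; simp
        have := hsh.nb_mem (by rw [← nb_eq hnf]; exact mem_nb this rfl)
        simp at this
      · cases h1
      · simp only [NT.E.injEq] at h1
        subst h1; subst h2; subst h3
        right
        have hM : ∀ x ∈ m, isNB x = true := by
          intro x hx
          by_contra hb
          simp only [Bool.not_eq_true] at hb
          have hxF : [x] ∈ finals := by
            cases x with
            | br mm k b => cases mm <;> cases k <;> cases b <;> simp [finals, marked]
            | _ => simp [isNB] at hb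
          refine not_free_one hxF ?_ hf
          simp [hx]
        have h4 : nb m = m := by
          unfold nb
          rw [List.filter_eq_self]
          exact hM
        have h5 := nb_eq hnf
        rw [h4] at h5
        have n1 : NT.S1 ∉ m := by
          intro hx
          refine not_free_one (F := finals) (x := NT.S1) (by simp [finals]) ?_ hf
          simp [hx]
        have n2 : NT.S2 ∉ m := by
          intro hx
          refine not_free_one (F := finals) (x := NT.S2) (by simp [finals]) ?_ hf
          simp [hx]
        cases hsh with
        | one h => rw [nb_one] at h5; rw [h5] at n1; simp at n1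
        | two h => rw [nb_two] at h5; rw [h5] at n2; simp at n2
        | @three x y h =>
          rw [nb_three] at h5
          subst h5
          have h6 : norm false [NT.D] = [NT.D] := rfl
          have h7 := nf_split [] [] (um (phi idx (x ++ fin S ++ y))) (x := NT.D) rfl
          rw [List.nil_append] at h7
          rw [h6, h7] at hnf
          have h8 : nf [] [NT.D] = [NT.D] := rfl
          rw [h8] at hnf
          have h9 : nf [] (um (phi idx (x ++ fin S ++ y))) = [] := by
            have hl := congrArg List.length hnf
            simp only [List.length_append, List.length_cons, List.length_nil] at hl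
            exact List.eq_nil_of_length_eq_zero (by omega)
          have h10 := run_of_nf _ [] h9
          rw [run_phi_nil idx hidx] at h10
          exact ⟨w, 2, by simp [List.replicate], sound syms P S h h10⟩
    · -- `S0`
      exfalso
      rcases hl' with ⟨l3, _, hm⟩ | ⟨h1, _, _⟩ | ⟨h1, _, _⟩
      · have : NT.S0 ∈ m := by rw [hm]; simp
        have := hsh.nb_mem (by rw [← nb_eq hnf]; exact mem_nb this rfl)
        simp at this
      · cases h1
      · cases h1
    · -- `S1 → D ... S2`
      rcases hl' with ⟨l3, rfl, hm⟩ | ⟨h1, _, _⟩ | ⟨h1, _, _⟩
      · obtain ⟨rfl, y, hy, rfl, h3⟩ := S1_head hsh hnf hS hm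
        left
        refine mkInv (w := w) (m := NT.D :: um (phi idx [(false, none)]) ++ NT.S2 :: l3) (e := e)
          (by simp) (Shape.two (SL2.start hy)) ?_ (Or.inl ?_)
        · rw [norm_append, norm_cons_nb e rfl, norm_um, norm_cons_nb e rfl, nf_split _ _ _ rfl,
            nf_split _ _ _ rfl, h3]
        · rw [nb_two]; simp
      · cases h1
      · cases h1
    · -- `S2 → fin`
      rcases hl' with ⟨l3, rfl, hm⟩ | ⟨h1, _, _⟩ | ⟨h1, _, _⟩
      · obtain ⟨x, y, hy, h3, h4⟩ := S2_parts hsh hnf hm
        left
        refine mkInv (w := w) (m := l1 ++ um (phi idx (fin S)) ++ l3) (e := e)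
          (by simp) (Shape.three hy) ?_ (Or.inl ?_)
        · rw [norm_append, norm_append, norm_um, nf_append, nf_append, h3, nf_congr _ _ _ h4,
            ← nf_append, ← nf_append]
          congr 1
          rw [phi_append, phi_append]
          simp [um]
        · rw [nb_three]; simp
      · cases h1
      · cases h1
    · -- `S1 → a S1 ...`
      rcases hl' with ⟨l3, rfl, hm⟩ | ⟨h1, _, _⟩ | ⟨h1, _, _⟩
      · obtain ⟨rfl, y, hy, rfl, h3⟩ := S1_head hsh hnf hS hm
        left
        refine mkInv (w := w ++ [a])
          (m := NT.S1 :: (um (phi idx [(true, some (Sum.inr a))]) ++ l3)) (e := e)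
          (by simp) (Shape.one (SL1.letter a hy)) ?_ (Or.inr fun _ => ⟨_, rfl⟩)
        rw [norm_cons_nb e rfl, norm_append, norm_um]
        have h8 := nf_split [] [] (um (phi idx [(true, some (Sum.inr a))]) ++ norm e l3)
          (x := NT.S1) rfl
        have h9 := nf_split [] [] (um (phi idx ((true, some (Sum.inr a)) :: y))) (x := NT.S1) rfl
        rw [List.nil_append] at h8 h9
        rw [h8, h9]
        congr 1
        rw [nf_append, nf_congr _ _ _ h3, ← nf_append, phi_cons, phi_cons]
        congr 1
        simp [um, phi]
      · cases h1
      · cases h1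
    · -- `S2 → ... S2 ...`
      rcases hl' with ⟨l3, rfl, hm⟩ | ⟨h1, _, _⟩ | ⟨h1, _, _⟩
      · obtain ⟨x, y, hy, h3, h4⟩ := S2_parts hsh hnf hm
        left
        refine mkInv (w := w) (m := (l1 ++ um (phi idx q.1)) ++ NT.S2 :: (um (phi idx q.2) ++ l3))
          (e := e) (by simp) (Shape.two (SL2.step q hq hy)) ?_ (Or.inl ?_)
        · rw [norm_append, norm_append, norm_um, norm_cons_nb e rfl, norm_append, norm_um,
            nf_split _ _ _ rfl, nf_split _ _ _ rfl]
          congr 1
          · rw [nf_append, nf_congr _ _ _ h4, ← nf_append, phi_append]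
            simp [um]
          · congr 1
            rw [nf_append, h3, ← nf_append, phi_append]
            simp [um]
        · rw [nb_two]; simp
      · cases h1
      · cases h1
  | right r hr u v hf =>
    obtain ⟨w, m, e, m0, hs, hsh, hnf, hS⟩ := hi
    obtain ⟨l1, l2, hl, rfl, rfl⟩ := split1 hs
    have hl' := split2 hl.symm
    simp only [gr, ctxRight, List.mem_append, List.mem_cons, List.not_mem_nil, or_false,
      List.mem_map] at hr
    rcases hr with (⟨q, hq, rfl⟩ | ⟨q, hq, rfl⟩) | rfl
    · -- mark
      rcases hl' with ⟨l3, rfl, hm⟩ | ⟨h1, _, _⟩ | ⟨h1, _, _⟩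
      · left
        have he : e = false := by
          by_contra he
          simp only [Bool.not_eq_false] at he
          subst he
          refine not_free_one (F := [[NT.E true]]) (x := NT.E true) (by simp) ?_ hf
          simp
        subst he
        simp only at hm
        refine mkInv (w := w) (m := l1 ++ NT.br true q.1 q.2 :: l3) (e := false) (m0 := m0)
          (by simp) hsh ?_ (Or.inr ?_)
        · rw [← hnf, hm]
          congr 1
          simp [norm, unmark]
        · intro h
          have h5 : NT.S1 ∈ m := by
            rw [hm]
            simpa using h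
          obtain ⟨m', hm'⟩ := hS h5
          cases l1 with
          | nil => rw [hm] at hm'; simp at hm'
          | cons a l1 =>
            rw [hm] at hm'
            simp only [List.cons_append, List.cons.injEq] at hm'
            exact ⟨_, by rw [hm'.1]; rfl⟩
      · cases h1
      · cases h1
    · -- erase
      rcases hl' with ⟨l3, rfl, hm⟩ | ⟨h1, _, _⟩ | ⟨h1, _, _⟩
      · left
        have he : e = true := by
          by_contra he
          simp only [Bool.not_eq_true] at he
          subst he
          refine not_free_one (F := [[NT.E false]]) (x := NT.E false) (by simp) ?_ hf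
          simp
        subst he
        simp only at hm
        refine mkInv (w := w) (m := l1 ++ l3) (e := true) (m0 := m0)
          (by simp) hsh ?_ (Or.inr ?_)
        · rw [← hnf, hm]
          congr 1
          simp [norm, isM]
        · intro h
          have h5 : NT.S1 ∈ m := by
            rw [hm]
            simp only [List.mem_append, List.mem_cons] at h ⊢
            tauto
          obtain ⟨m', hm'⟩ := hS h5
          cases l1 with
          | nil => rw [hm] at hm'; simp at hm'
          | cons a l1 =>
            rw [hm] at hm'
            simp only [List.cons_append, List.cons.injEq] at hm'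
            exact ⟨_, by rw [hm'.1]; rfl⟩
      · cases h1
      · cases h1
    · -- `D → ε`
      exfalso
      rcases hl' with ⟨l3, rfl, hm⟩ | ⟨_, _, rfl⟩ | ⟨h1, _, _⟩
      · cases e
        · refine not_free_one (F := [[NT.E false], [NT.E true]]) (x := NT.E false) (by simp) ?_ hf
          simp
        · refine not_free_one (F := [[NT.E false], [NT.E true]]) (x := NT.E true) (by simp) ?_ hf
          simp
      · cases e
        · refine not_free_one (F := [[NT.E false], [NT.E true]]) (x := NT.E false) (by simp) ?_ hf
          simp
        · refine not_free_one (F := [[NT.E false], [NT.E true]]) (x := NT.E true) (by simp) ?_ hf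
          simp
      · cases h1

omit hidx in
theorem step_fin {s t : List (NT ⊕ T)} (h : (gr syms ts P S idx).Step s t)
    (hi : Fin' P S s) : Fin' P S t := by
  cases h with
  | left r hr u v hf =>
    exfalso
    obtain ⟨w, j, hs, _⟩ := hi
    obtain ⟨l1, l2, hl, rfl, rfl⟩ := split1 hs
    have hD : r.lhs = NT.D := by
      have : r.lhs ∈ List.replicate j NT.D := by rw [hl]; simp
      exact (List.mem_replicate.1 this).2
    simp only [gr, ctxLeft, ctxFree, List.mem_append, List.mem_cons, List.not_mem_nil, or_false,
      List.mem_map] at hr
    rcases hr with (rfl | rfl | rfl) | ((rfl | rfl | rfl) | ⟨a, ha, rfl⟩) | ⟨q, hq, rfl⟩ <;>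
      cases hD
  | right r hr u v hf =>
    obtain ⟨w, j, hs, hw⟩ := hi
    obtain ⟨l1, l2, hl, rfl, rfl⟩ := split1 hs
    have hD : r.lhs = NT.D := by
      have : r.lhs ∈ List.replicate j NT.D := by rw [hl]; simp
      exact (List.mem_replicate.1 this).2
    simp only [gr, ctxRight, List.mem_append, List.mem_cons, List.not_mem_nil, or_false,
      List.mem_map] at hr
    rcases hr with (⟨q, hq, rfl⟩ | ⟨q, hq, rfl⟩) | rfl
    · cases hD
    · cases hD
    · have h1 : ∀ x ∈ l1, x = NT.D := by
        intro x hx
        have : x ∈ List.replicate j NT.D := by rw [hl]; simp [hx]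
        exact (List.mem_replicate.1 this).2
      have h2 : ∀ x ∈ l2, x = NT.D := by
        intro x hx
        have : x ∈ List.replicate j NT.D := by rw [hl]; simp [hx]
        exact (List.mem_replicate.1 this).2
      refine ⟨w, l1.length + l2.length, ?_, hw⟩
      rw [List.replicate_add, ← List.eq_replicate_of_mem h1, ← List.eq_replicate_of_mem h2]
      simp

theorem lang_sound {w : List T} (h : w ∈ (gr syms ts P S idx).Lang) :
    ReflTransGen (Step0 P) [Sum.inl S] (w.map Sum.inr) := by
  have key : ∀ s, ReflTransGen (gr syms ts P S idx).Step [Sum.inl NT.S0] s →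
      s = [Sum.inl NT.S0] ∨ Inv (moves syms P) S idx s ∨ Fin' P S s := by
    intro s hs
    induction hs with
    | refl => exact Or.inl rfl
    | @tail s t _ hst ih =>
      right
      rcases ih with rfl | ih | ih
      · left
        generalize hu : [(Sum.inl NT.S0 : NT ⊕ T)] = s0 at hst
        cases hst with
        | left r hr u v hf =>
          have hu' : u = [] ∧ r.lhs = NT.S0 ∧ v = [] := by
            cases u with
            | nil =>
              simp only [List.nil_append, List.cons.injEq, Sum.inl.injEq] at hu
              exact ⟨rfl, hu.1.symm, hu.2.symm⟩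
            | cons a u => simp at hu
          obtain ⟨rfl, hD, rfl⟩ := hu'
          simp only [gr, ctxLeft, ctxFree, List.mem_append, List.mem_cons, List.not_mem_nil,
            or_false, List.mem_map] at hr
          rcases hr with (rfl | rfl | rfl) | ((rfl | rfl | rfl) | ⟨a, ha, rfl⟩) | ⟨q, hq, rfl⟩
          · cases hD
          · cases hD
          · cases hD
          · refine mkInv (w := []) (m := NT.S1 :: um (phi idx [(true, none)])) (e := false)
              (by simp) (Shape.one SL1.start) ?_ (Or.inr fun _ => ⟨_, rfl⟩)
            rw [norm_cons_nb _ rfl, norm_um]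
          · cases hD
          · cases hD
          · cases hD
          · cases hD
        | right r hr u v hf =>
          have hD : r.lhs = NT.S0 := by
            cases u with
            | nil =>
              simp only [List.nil_append, List.cons.injEq, Sum.inl.injEq] at hu
              exact hu.1.symm
            | cons a u => simp at hu
          simp only [gr, ctxRight, List.mem_append, List.mem_cons, List.not_mem_nil, or_false,
            List.mem_map] at hr
          rcases hr with (⟨q, hq, rfl⟩ | ⟨q, hq, rfl⟩) | rfl <;> cases hD
      · exact step_inv hidx hst ih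
      · exact Or.inr (step_fin hst ih)
  rcases key _ h with h1 | h1 | h1
  · cases w with
    | nil => simp at h1
    | cons a w => simp at h1
  · exfalso
    obtain ⟨w', m, e, m0, hs, _⟩ := h1
    have : (Sum.inl NT.D : NT ⊕ T) ∈ w.map Sum.inr := by
      rw [hs]; simp
    simp at this
  · obtain ⟨w', j, hs, hw⟩ := h1
    cases j with
    | zero =>
      simp only [List.replicate_zero, List.map_nil, List.append_nil] at hs
      have hww : w = w' := List.map_injective_iff.2 Sum.inr_injective hs
      rw [hww]; exact hw
    | succ j =>
      exfalso
      have : (Sum.inl NT.D : NT ⊕ T) ∈ w.map Sum.inr := by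
        rw [hs]; simp [List.replicate_succ]
      simp at this

end

end Pool.Agent.Q217.FG
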