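import Pool.Agent.Q217.FG.Base

/-!
# Coding the derivations of a phrase structure grammar by words of brackets
-/

set_option autoImplicit false
set_option linter.unusedSectionVars false

namespace Pool.Agent.Q217.FG

open Relation

section
variable {A : Type} [DecidableEq A]

theorem run_cls (v : List A) (s : List A) :
    run (v.map fun a => (true, a)) (v ++ s) = some s := by
  induction v with
  | nil => rfl
  | cons a v ih => simp [run, ih]

theorem run_cls_inv (v : List A) : ∀ (s s' : List A),
    run (v.map fun a => (true, a)) s = some s' → s = v ++ s' := by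
  induction v with
  | nil => intro s s' h; simpa [run] using h
  | cons a v ih =>
    intro s s' h
    cases s with
    | nil => simp [run] at h
    | cons c s =>
      simp only [List.map_cons, run] at h
      split at h
      · rename_i hc
        subst hc
        rw [ih _ _ h]; rfl
      · cases h

theorem run_ops (u : List A) : ∀ (s : List A),
    run (u.map fun a => (false, a)) s = some (u.reverse ++ s) := by
  induction u with
  | nil => intro s; rfl
  | cons a u ih =>
    intro s
    simp only [List.map_cons, run]
    rw [ih]
    simp

theorem acc_cls (v : List A) (y : List (Bool × A)) (s : List A) (h : acc y = some s) :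
    acc ((v.map fun a => (true, a)) ++ y) = some (v ++ s) := by
  induction v with
  | nil => simpa using h
  | cons a v ih => simp [acc, ih]

end

section
variable {N T : Type}

/-- symbols on the stacks: `none` is the bottom -/
abbrev Sg (N T : Type) := Option (N ⊕ T)

noncomputable instance : DecidableEq (Sg N T) := Classical.decEq _

/-- the moves: shift a symbol to the right stack, shift a symbol to the left stack, apply a rule
backwards -/
def moves (syms : List (N ⊕ T)) (P : List (List (N ⊕ T) × List (N ⊕ T))) :
    List (List (Bool × Sg N T) × List (Bool × Sg N T)) :=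
  (syms.map fun v => ([(true, some v)], [(true, some v)])) ++
    ((syms.map fun v => ([(false, some v)], [(false, some v)])) ++
      P.map fun r => (((r.2.map some).map fun v => (true, v)) ++
        ((r.1.map some).reverse.map fun v => (false, v)), []))

/-- first phase -/
inductive SL1 : List T → List (Bool × Sg N T) → Prop
  | start : SL1 [] [(true, none)]
  | letter {w : List T} {y : List (Bool × Sg N T)} (t : T) :
      SL1 w y → SL1 (w ++ [t]) ((true, some (Sum.inr t)) :: y)

/-- second phase -/
inductive SL2 (R : List (List (Bool × Sg N T) × List (Bool × Sg N T))) :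
    List T → List (Bool × Sg N T) → List (Bool × Sg N T) → Prop
  | start {w : List T} {y : List (Bool × Sg N T)} : SL1 w y → SL2 R w [(false, none)] y
  | step {w : List T} {x y : List (Bool × Sg N T)}
      (m : List (Bool × Sg N T) × List (Bool × Sg N T)) (hm : m ∈ R) :
      SL2 R w x y → SL2 R w (x ++ m.1) (m.2 ++ y)

theorem SL1.acc_eq {w : List T} {y : List (Bool × Sg N T)} (h : SL1 w y) :
    acc y = some ((w.map Sum.inr).reverse.map some ++ [none]) := by
  induction h with
  | start => simp [acc]
  | letter t h ih => simp [acc, ih]

variable (syms : List (N ⊕ T)) (P : List (List (N ⊕ T) × List (N ⊕ T)))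

theorem map_some_none {a b : List (N ⊕ T)} {s : List (Sg N T)}
    (h : a.map some ++ [none] = b.map some ++ s) : ∃ c, a = b ++ c ∧ s = c.map some ++ [none] := by
  induction b generalizing a with
  | nil => exact ⟨a, rfl, by simpa using h.symm⟩
  | cons v b ih =>
    cases a with
    | nil => simp at h
    | cons v' a =>
      simp only [List.map_cons, List.cons_append, List.cons.injEq, Option.some.injEq] at h
      obtain ⟨rfl, h⟩ := h
      obtain ⟨c, rfl, hc⟩ := ih h
      exact ⟨c, rfl, hc⟩

theorem SL2.sound {w : List T} {x y : List (Bool × Sg N T)}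
    (h : SL2 (moves syms P) w x y) : ∀ sx sy, run x [] = some sx → acc y = some sy →
      ∃ l r : List (N ⊕ T), sx = l.map some ++ [none] ∧ sy = r.map some ++ [none] ∧
        ReflTransGen (Step0 P) (r.reverse ++ l) (w.map Sum.inr) := by
  induction h with
  | @start y h =>
    intro sx sy hx hy
    rw [h.acc_eq] at hy
    simp only [run, Option.some.injEq] at hx hy
    refine ⟨[], (w.map Sum.inr).reverse, ?_, hy.symm, ?_⟩
    · rw [← hx]; rfl
    · simp only [List.reverse_reverse, List.append_nil]
      exact ReflTransGen.refl
  | @step x y m hm h ih =>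
    intro sx sy hx hy
    rw [run_append] at hx
    rcases hx0 : run x [] with _ | sx0
    · rw [hx0] at hx; simp at hx
    rw [hx0] at hx
    simp only [Option.bind_some] at hx
    simp only [moves, List.mem_append, List.mem_map] at hm
    rcases hm with ⟨v, _, rfl⟩ | ⟨v, _, rfl⟩ | ⟨⟨u, v⟩, hr, rfl⟩
    · simp only [List.cons_append, List.nil_append, acc, Option.map_eq_some_iff] at hy
      obtain ⟨sy0, hy0, rfl⟩ := hy
      obtain ⟨l, r, h1, rfl, h3⟩ := ih _ _ hx0 hy0
      have h4 := run_cls_inv [some v] _ _ hx
      rw [h1] at h4
      obtain ⟨l', rfl, h5⟩ := map_some_none (b := [v]) (by simpa using h4)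
      refine ⟨l', v :: r, h5, rfl, ?_⟩
      simpa using h3
    · simp only [run, Option.some.injEq] at hx
      have h5 : ∃ sy0, acc y = some sy0 ∧ sy0 = some v :: sy := by
        simp only [List.cons_append, List.nil_append, acc] at hy
        split at hy
        · rename_i b s hy'
          split at hy
          · rename_i hb
            simp only [Option.some.injEq] at hy
            exact ⟨_, hy', by rw [hb, hy]⟩
          · cases hy
        · cases hy
      obtain ⟨sy0, hy0, rfl⟩ := h5
      obtain ⟨l, r, h1, h2, h3⟩ := ih _ _ hx0 hy0
      obtain ⟨r', rfl, h5⟩ := map_some_none (a := r) (b := [v]) (s := sy) (by simpa using h2.symm)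
      refine ⟨v :: l, r', ?_, h5, ?_⟩
      · rw [← hx, h1]; rfl
      · simpa using h3
    · simp only [List.nil_append] at hy
      obtain ⟨l, r, h1, h2, h3⟩ := ih _ _ hx0 hy
      simp only at hx
      rw [run_append] at hx
      rcases hx1 : run ((v.map some).map fun v => (true, v)) sx0 with _ | s1
      · rw [hx1] at hx; simp at hx
      rw [hx1] at hx
      simp only [Option.bind_some] at hx
      rw [run_ops] at hx
      simp only [List.reverse_reverse, Option.some.injEq] at hx
      have h4 := run_cls_inv _ _ _ hx1
      rw [h1] at h4
      obtain ⟨l', rfl, h5⟩ := map_some_none h4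
      refine ⟨u ++ l', r, ?_, h2, ?_⟩
      · rw [← hx, h5]; simp
      · refine ReflTransGen.head ⟨(u, v), hr, r.reverse, l', ?_, ?_⟩ h3
        · simp
        · simp

/-- the last move -/
def fin (S : N) : List (Bool × Sg N T) :=
  [(true, some (Sum.inl S)), (true, none), (false, none)]

theorem sound (S : N) {w : List T} {x y : List (Bool × Sg N T)}
    (h : SL2 (moves syms P) w x y) (hz : run (x ++ fin S ++ y) [] = some []) :
    ReflTransGen (Step0 P) [Sum.inl S] (w.map Sum.inr) := by
  rw [run_append, run_append] at hz
  rcases hx0 : run x [] with _ | sx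
  · rw [hx0] at hz; simp at hz
  rw [hx0] at hz
  simp only [Option.bind_some] at hz
  rcases hx1 : run (fin (T := T) S) sx with _ | s1
  · rw [hx1] at hz; simp at hz
  rw [hx1] at hz
  simp only [Option.bind_some] at hz
  rw [acc_iff] at hz
  obtain ⟨l, r, h1, h2, h3⟩ := h.sound syms P _ _ hx0 hz
  have hx2 : fin (T := T) S = ([some (Sum.inl S), none].map fun a => (true, a)) ++
    ([none].map fun a => (false, a)) := rfl
  rw [hx2, run_append] at hx1
  rcases hx3 : run ([some (Sum.inl S), (none : Sg N T)].map fun a => (true, a)) sx with _ | s2
  · rw [hx3] at hx1; simp at hx1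
  rw [hx3] at hx1
  simp only [Option.bind_some] at hx1
  rw [run_ops] at hx1
  have h4 := run_cls_inv _ _ _ hx3
  rw [h1] at h4
  obtain ⟨l', rfl, h5⟩ := map_some_none (b := [Sum.inl S]) (s := none :: s2) (by simpa using h4)
  cases l' with
  | cons a l' => simp at h5
  | nil =>
    simp only [List.map_nil, List.nil_append, List.cons.injEq, true_and] at h5
    subst h5
    simp only [List.reverse_singleton, List.append_nil, Option.some.injEq] at hx1
    rw [← hx1] at h2
    cases r with
    | cons a r => simp at h2
    | nil => simpa using h3

/-- `l` on the left stack and `r` on the right stack can be reached -/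
def Reach (w : List T) (l r : List (N ⊕ T)) : Prop :=
  ∃ x y, SL2 (moves syms P) w x y ∧ run x [] = some (l.map some ++ [none]) ∧
    acc y = some (r.map some ++ [none])

variable (hs : ∀ v, v ∈ syms)
include hs

theorem Reach.shiftR {w : List T} {v : N ⊕ T} {l r : List (N ⊕ T)}
    (h : Reach syms P w (v :: l) r) : Reach syms P w l (v :: r) := by
  obtain ⟨x, y, h1, h2, h3⟩ := h
  refine ⟨_, _, SL2.step ([(true, some v)], [(true, some v)]) ?_ h1, ?_, ?_⟩
  · simp only [moves, List.mem_append, List.mem_map]
    exact Or.inl ⟨v, hs v, rfl⟩
  · rw [run_append, h2]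
    simp [run]
  · simp [acc, h3]

theorem Reach.shiftL {w : List T} {v : N ⊕ T} {l r : List (N ⊕ T)}
    (h : Reach syms P w l (v :: r)) : Reach syms P w (v :: l) r := by
  obtain ⟨x, y, h1, h2, h3⟩ := h
  refine ⟨_, _, SL2.step ([(false, some v)], [(false, some v)]) ?_ h1, ?_, ?_⟩
  · simp only [moves, List.mem_append, List.mem_map]
    exact Or.inr (Or.inl ⟨v, hs v, rfl⟩)
  · rw [run_append, h2]
    simp [run]
  · simp [acc, h3]

theorem Reach.allLeft {w : List T} {l : List (N ⊕ T)} : ∀ {r : List (N ⊕ T)},
    Reach syms P w l r → Reach syms P w [] (l.reverse ++ r) := by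
  induction l with
  | nil => intro r h; simpa using h
  | cons v l ih =>
    intro r h
    have := ih (h.shiftR syms P hs)
    simpa using this

theorem Reach.allRight {w : List T} {l : List (N ⊕ T)} : ∀ {r : List (N ⊕ T)},
    Reach syms P w [] (l.reverse ++ r) → Reach syms P w l r := by
  induction l with
  | nil => intro r h; simpa using h
  | cons v l ih =>
    intro r h
    refine Reach.shiftL syms P hs (ih ?_)
    simpa using h

theorem Reach.resplit {w : List T} {l r l' r' : List (N ⊕ T)} (h : Reach syms P w l r)
    (e : r'.reverse ++ l' = r.reverse ++ l) : Reach syms P w l' r' := by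
  apply Reach.allRight syms P hs
  have e2 := congrArg List.reverse e
  simp only [List.reverse_append, List.reverse_reverse] at e2
  rw [e2]
  exact h.allLeft syms P hs

theorem Reach.init (w : List T) : Reach syms P w [] (w.map Sum.inr).reverse := by
  have h : ∀ w : List T, ∃ y : List (Bool × Sg N T), SL1 w y := by
    intro w
    induction w using List.reverseRecOn with
    | nil => exact ⟨_, SL1.start⟩
    | append_singleton w t ih =>
      obtain ⟨y, hy⟩ := ih
      exact ⟨_, SL1.letter t hy⟩
  obtain ⟨y, hy⟩ := h w
  exact ⟨_, _, SL2.start hy, by simp [run], hy.acc_eq⟩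

theorem reach_of_derives {w : List T} {f : List (N ⊕ T)}
    (h : ReflTransGen (Step0 P) f (w.map Sum.inr)) :
    ∀ l r, f = r.reverse ++ l → Reach syms P w l r := by
  induction h using ReflTransGen.head_induction_on with
  | refl =>
    intro l r e
    refine (Reach.init syms P hs w).resplit syms P hs ?_
    simpa using e.symm
  | @head f f1 h1 _ ih =>
    intro l r e
    obtain ⟨⟨u, v⟩, hr, p, q, rfl, rfl⟩ := h1
    obtain ⟨x, y, h2, h3, h4⟩ := ih (v ++ q) p.reverse (by simp)
    have h5 : Reach syms P w (u ++ q) p.reverse := by
      refine ⟨_, _, SL2.step (((v.map some).map fun v => (true, v)) ++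
        ((u.map some).reverse.map fun v => (false, v)), []) ?_ h2, ?_, ?_⟩
      · simp only [moves, List.mem_append, List.mem_map]
        exact Or.inr (Or.inr ⟨_, hr, rfl⟩)
      · rw [run_append, h3]
        simp only [Option.bind_some]
        rw [run_append, List.map_append, List.append_assoc, run_cls]
        simp only [Option.bind_some]
        rw [run_ops]
        simp
      · simpa using h4
    refine h5.resplit syms P hs ?_
    rw [← e]
    simp

theorem complete (S : N) {w : List T}
    (h : ReflTransGen (Step0 P) [Sum.inl S] (w.map Sum.inr)) :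
    ∃ x y, SL2 (moves syms P) w x y ∧ run (x ++ fin S ++ y) [] = some [] := by
  obtain ⟨x, y, h1, h2, h3⟩ := reach_of_derives syms P hs h [Sum.inl S] [] rfl
  refine ⟨x, y, h1, ?_⟩
  rw [run_append, run_append, h2]
  simp only [Option.bind_some, fin, run, List.map_cons, List.map_nil, List.cons_append,
    List.nil_append, if_true]
  rw [acc_iff, h3]
  rfl

end

end Pool.Agent.Q217.FG
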